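import Pool.Agent.H61.PR.Step
import Pool.Agent.H61.PQ.Defs
import Pool.Agent.H40.PU.Ind

/-!
# PR-07: the residue theorem for compact connected surfaces; `H^1(M) = H^1(M minus a disc)`

`goodV_disc`: `V = e0 '' ball 0 1` is open, preconnected; `res_chart`.
`residue`: inductive predicate `Ch V`: `Ch (e0 '' ball 0 1)` for one fixed chart `e0` (any point, `Surf`), `Ch V → Ch (V ∪ e '' ball 0 1)` for every open embedding `e` with `(e '' ball 0 1 ∩ V).Nonempty`.  Chain sets are
good (`goodV_disc`, `goodV_step`), open, contain `e0 '' ball 0 1`; the union of two chain sets is a chain set (induction on the second; as in `ext_main`); the union of all chain sets is open and closed (a limit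
point `x`: a disc around `x` meets some chain set), so it is `M` (connected); `M` compact: some chain set is `univ` (directed cover).  So `GoodV univ`: with `Cob ∅` trivial: the statement.
`h1_disc`: the restriction map `Hc univ → Hc (e '' ball 0 1)ᶜ` (linear, induced by the identity on functions: `Zc univ ≤ Zc A`; `Submodule.mapQ`) is injective: `Coc univ g`, `Cob A g`: on the closed disc `g` is
a coboundary, the intersection is the circle, connected: `glueCob_conn` gives `Cob univ g`; surjective: `Coc A g` has `Cob (e '' sphere 0 1) g` by `residue`, `fill_one` (`Z = univ`).  So the dimensions agree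
(`LinearEquiv.finrank_eq`).
-/

namespace Pool.Agent.H61.PO

open Set Filter Topology Metric

variable {M : Type*} [MetricSpace M] [CompactSpace M]

theorem goodV_disc {e0 : ℂ → M} (he0 : IsOpenEmbedding e0) : GoodV (e0 '' ball 0 1) :=
  ⟨he0.isOpenMap _ isOpen_ball,
    ((convex_ball (0 : ℂ) 1).isPreconnected).image _ he0.continuous.continuousOn,
    fun _ he h _ hw hc => res_chart he0 he h hw hc⟩

/-- finite unions of discs, starting with `D0`, each new disc meeting the union of the previous
ones -/
private inductive ResChain (D0 : Set M) : Set M → Prop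
  | base : ResChain D0 D0
  | step {V : Set M} {e : ℂ → M} (hV : ResChain D0 V) (he : IsOpenEmbedding e)
      (hne : (e '' ball 0 1 ∩ V).Nonempty) : ResChain D0 (V ∪ e '' ball 0 1)

private theorem resChain_good (hM : Surf M) {D0 : Set M} (h0 : GoodV D0) {V : Set M}
    (hV : ResChain D0 V) : GoodV V ∧ D0 ⊆ V := by
  induction hV with
  | base => exact ⟨h0, Subset.rfl⟩
  | step hV he hne ih => exact ⟨goodV_step hM ih.1 he hne, ih.2.trans subset_union_left⟩

private theorem resChain_union (hM : Surf M) {D0 : Set M} (h0 : GoodV D0) {V V' : Set M}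
    (hV : ResChain D0 V) (hV' : ResChain D0 V') : ResChain D0 (V ∪ V') := by
  induction hV' with
  | base =>
    rw [union_eq_self_of_subset_right (resChain_good hM h0 hV).2]
    exact hV
  | step hV1 he hne ih =>
    rw [← union_assoc]
    exact ResChain.step ih he (hne.mono (inter_subset_inter_right _ subset_union_right))

private theorem goodV_univ [ConnectedSpace M] (hM : Surf M) : GoodV (univ : Set M) := by
  obtain ⟨x0⟩ : Nonempty M := inferInstance
  obtain ⟨e0, he0, -, -⟩ := hM x0 univ univ_mem
  set D0 : Set M := e0 '' ball 0 1 with hD0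
  have h0 : GoodV D0 := goodV_disc he0
  have hO : IsOpen (⋃ V : {V : Set M // ResChain D0 V}, (V : Set M)) :=
    isOpen_iUnion fun V => (resChain_good hM h0 V.2).1.1
  have hC : IsClosed (⋃ V : {V : Set M // ResChain D0 V}, (V : Set M)) := by
    rw [← closure_subset_iff_isClosed]
    intro x hx
    obtain ⟨f, hf, hf0, -⟩ := hM x univ univ_mem
    have hfo : IsOpen (f '' ball 0 1) := hf.isOpenMap _ isOpen_ball
    have hxf : x ∈ f '' ball 0 1 := ⟨0, by simp, hf0⟩
    obtain ⟨y, hyf, hyA⟩ := mem_closure_iff.1 hx _ hfo hxf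
    obtain ⟨V, hyV⟩ := mem_iUnion.1 hyA
    exact mem_iUnion.2 ⟨⟨(V : Set M) ∪ f '' ball 0 1, ResChain.step V.2 hf ⟨y, hyf, hyV⟩⟩,
      Or.inr hxf⟩
  have hne : (⋃ V : {V : Set M // ResChain D0 V}, (V : Set M)).Nonempty :=
    ⟨e0 0, mem_iUnion.2 ⟨⟨D0, ResChain.base⟩, ⟨0, by simp, rfl⟩⟩⟩
  have hU : (⋃ V : {V : Set M // ResChain D0 V}, (V : Set M)) = univ :=
    IsClopen.eq_univ ⟨hC, hO⟩ hne
  have hN : Nonempty {V : Set M // ResChain D0 V} := ⟨⟨D0, ResChain.base⟩⟩
  obtain ⟨V, hV⟩ := (isCompact_univ (X := M)).elim_directed_cover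
    (fun V : {V : Set M // ResChain D0 V} => (V : Set M))
    (fun V => (resChain_good hM h0 V.2).1.1) (by rw [hU])
    (fun V V' => ⟨⟨(V : Set M) ∪ V', resChain_union hM h0 V.2 V'.2⟩, subset_union_left,
      subset_union_right⟩)
  have hVu : (V : Set M) = univ := univ_subset_iff.1 hV
  rw [← hVu]
  exact (resChain_good hM h0 V.2).1

theorem residue [ConnectedSpace M] (hM : Surf M) {e : ℂ → M} (he : IsOpenEmbedding e)
    {w : M → M → ZMod 2} (hw : Coc (e '' ball 0 1)ᶜ w) : Cob (e '' sphere 0 1) w := by
  refine (goodV_univ hM).2.2 e he (subset_univ _) w hw ?_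
  rw [compl_univ]
  exact ⟨0, fun x hx => absurd hx (notMem_empty x)⟩

theorem h1_disc [ConnectedSpace M] (hM : Surf M) {e : ℂ → M} (he : IsOpenEmbedding e) :
    h1 ((e '' ball 0 1)ᶜ) = h1 (univ : Set M) := by
  have hun : (e '' ball 0 1)ᶜ ∪ e '' closedBall 0 1 = univ := by
    refine eq_univ_of_forall fun x => ?_
    by_cases hx : x ∈ e '' ball 0 1
    · exact Or.inr (image_mono ball_subset_closedBall hx)
    · exact Or.inl hx
  have hin : (e '' ball 0 1)ᶜ ∩ e '' closedBall 0 1 = e '' sphere 0 1 := by
    ext x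
    constructor
    · rintro ⟨hx, z, hz, rfl⟩
      refine ⟨z, ?_, rfl⟩
      have h1 : z ∉ ball (0 : ℂ) 1 := fun h => hx ⟨z, h, rfl⟩
      rw [mem_closedBall] at hz
      rw [mem_ball, not_lt] at h1
      exact le_antisymm hz h1
    · rintro ⟨z, hz, rfl⟩
      refine ⟨?_, z, sphere_subset_closedBall hz, rfl⟩
      rintro ⟨w, hw, hwz⟩
      rw [he.injective hwz] at hw
      rw [mem_sphere] at hz
      rw [mem_ball, hz] at hw
      exact lt_irrefl _ hw
  refine (Pool.Agent.H40.PU.h1_eq_of_bij (subset_univ _) ?_ ?_).symm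
  · intro g hg hc
    have hfin := glueCob_conn (A := (e '' ball 0 1)ᶜ) (B := e '' closedBall 0 1) (g := g)
      (he.isOpenMap _ isOpen_ball).isClosed_compl
      ((isCompact_closedBall (0 : ℂ) 1).image he.continuous).isClosed
      (hg.mono (subset_univ _)) hc (disc_triv he g (hg.mono (subset_univ _))) (by
        rw [hin]
        exact (SCC.preconn (scc_sphere one_pos)).image _ he.continuous.continuousOn)
    rwa [hun] at hfin
  · intro g hg
    obtain ⟨h, h1, h2⟩ := fill_one isClosed_univ he (subset_univ _) (g := g)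
      (by rw [← compl_eq_univ_sdiff]; exact hg) (residue hM he hg)
    rw [← compl_eq_univ_sdiff] at h2
    exact ⟨h, h1, h2⟩

end Pool.Agent.H61.PO
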