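import Pool.Agent.H61.PO.Glue
import Pool.Agent.H61.PO.Triv
import Pool.Agent.H61.PO.Circ

/-!
# PR-01: filling discs

`disc_triv`: `e '' closedBall 0 1` is trivial (`triv_star`, `Triv.image`); so every cocycle on it is a coboundary on it and on the circle.
`scc_disc`: `e '' sphere 0 1` is a simple closed curve.
`fill_one`: `glue` with `A = Z \ e '' ball 0 1` (closed: `e '' ball 0 1` is open), `B = e '' closedBall 0 1` (compact), `g2 = 0`; `A ∩ B = e '' sphere 0 1`
(`e` injective, `B ⊆ Z`), `A ∪ B = Z`.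
`fill`: induction on the finite set `J`: claim for `Z \ ⋃ j ∈ J`; insert `k`: apply `fill_one` to `Z' = Z \ ⋃ j ∈ J, e j '' ball 0 1` (closed, contains the closed disc `k` by disjointness) and `e k`, then the
induction hypothesis (the coboundary conditions on the other circles are preserved: they are in `Z' \ e k '' ball 0 1`, where the new cocycle is equivalent to the old one).
-/

namespace Pool.Agent.H61.PO

open Set Filter Topology Metric

variable {X : Type*} [MetricSpace X]

theorem disc_triv {e : ℂ → X} (he : IsOpenEmbedding e) : Triv (e '' closedBall 0 1) :=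
  Triv.image (isCompact_closedBall 0 1)
    (triv_star (isCompact_closedBall 0 1) (mem_closedBall_self zero_le_one)
      ((convex_closedBall 0 1).starConvex (mem_closedBall_self zero_le_one)))
    he.continuous.continuousOn he.injective.injOn

theorem scc_disc {e : ℂ → X} (he : IsOpenEmbedding e) : SCC (e '' sphere 0 1) :=
  (scc_sphere one_pos).image he.continuous.continuousOn he.injective.injOn

theorem fill_one {Z : Set X} (hZ : IsClosed Z) {e : ℂ → X} (he : IsOpenEmbedding e)
    (heZ : e '' closedBall 0 1 ⊆ Z) {g : X → X → ZMod 2} (hg : Coc (Z \ e '' ball 0 1) g)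
    (hS : Cob (e '' sphere 0 1) g) :
    ∃ h : X → X → ZMod 2, Coc Z h ∧ Cob (Z \ e '' ball 0 1) (g + h) := by
  have hA : IsClosed (Z \ e '' ball 0 1) := hZ.sdiff (he.isOpenMap _ isOpen_ball)
  have hB : IsClosed (e '' closedBall 0 1) :=
    ((isCompact_closedBall (0 : ℂ) 1).image he.continuous).isClosed
  have hcap : (Z \ e '' ball 0 1) ∩ (e '' closedBall 0 1) ⊆ e '' sphere 0 1 := by
    rintro _ ⟨⟨-, h1⟩, ⟨z, hz, rfl⟩⟩
    refine ⟨z, ?_, rfl⟩
    rw [mem_closedBall] at hz
    rw [mem_sphere]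
    refine le_antisymm hz ?_
    by_contra hc
    exact h1 ⟨z, mem_ball.2 (not_le.1 hc), rfl⟩
  have h0 : Cob ((Z \ e '' ball 0 1) ∩ (e '' closedBall 0 1))
      (g + (fun _ _ => 0 : X → X → ZMod 2)) :=
    (hS.mono hcap).add (Cob.zero _)
  obtain ⟨h, h1, h2, -⟩ := glue hA hB hg (Coc.zero _) h0
  refine ⟨h, h1.mono ?_, h2.symm⟩
  intro x hx
  by_cases hxe : x ∈ e '' ball 0 1
  · exact Or.inr (image_mono ball_subset_closedBall hxe)
  · exact Or.inl ⟨hx, hxe⟩

theorem fill {Z : Set X} (hZ : IsClosed Z) {ι : Type*} (J : Finset ι) {e : ι → ℂ → X}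
    (he : ∀ j ∈ J, IsOpenEmbedding (e j)) (heZ : ∀ j ∈ J, e j '' closedBall 0 1 ⊆ Z)
    (hdis : ∀ i ∈ J, ∀ j ∈ J, i ≠ j → Disjoint (e i '' closedBall 0 1) (e j '' closedBall 0 1))
    {g : X → X → ZMod 2} (hg : Coc (Z \ ⋃ j ∈ J, e j '' ball 0 1) g)
    (hS : ∀ j ∈ J, Cob (e j '' sphere 0 1) g) :
    ∃ h : X → X → ZMod 2, Coc Z h ∧ Cob (Z \ ⋃ j ∈ J, e j '' ball 0 1) (g + h) := by
  classical
  induction J using Finset.induction_on generalizing g with
  | empty =>
    refine ⟨g, ?_, ?_⟩
    · refine hg.mono ?_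
      intro x hx
      refine ⟨hx, ?_⟩
      simp
    · rw [add_self]
      exact Cob.zero _
  | insert k J hk ih =>
    have hcb : ∀ j, e j '' ball 0 1 ⊆ e j '' closedBall 0 1 :=
      fun j => image_mono ball_subset_closedBall
    have hsb : ∀ j, e j '' sphere 0 1 ⊆ e j '' closedBall 0 1 :=
      fun j => image_mono sphere_subset_closedBall
    have hkJ : ∀ j ∈ J, j ≠ k := fun j hj h => hk (h ▸ hj)
    have mk : k ∈ insert k J := Finset.mem_insert_self _ _
    have mJ : ∀ j ∈ J, j ∈ insert k J := fun j hj => Finset.mem_insert_of_mem hj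
    have hclosed : IsClosed (Z \ ⋃ j ∈ J, e j '' ball 0 1) := by
      refine hZ.sdiff (isOpen_biUnion fun j hj => ?_)
      exact (he j (mJ j hj)).isOpenMap _ isOpen_ball
    have hkZ : e k '' closedBall 0 1 ⊆ Z \ ⋃ j ∈ J, e j '' ball 0 1 := by
      intro x hx
      refine ⟨heZ k mk hx, ?_⟩
      intro hx'
      simp only [mem_iUnion] at hx'
      obtain ⟨j, hj, hxj⟩ := hx'
      exact (Set.disjoint_left.1 (hdis j (mJ j hj) k mk (hkJ j hj))) (hcb j hxj) hx
    have hset : (Z \ ⋃ j ∈ J, e j '' ball 0 1) \ e k '' ball 0 1 =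
        Z \ ⋃ j ∈ insert k J, e j '' ball 0 1 := by
      ext x
      simp only [mem_diff, mem_iUnion, Finset.mem_insert, exists_prop]
      constructor
      · rintro ⟨⟨h1, h2⟩, h3⟩
        refine ⟨h1, ?_⟩
        rintro ⟨j, rfl | hj, hxj⟩
        · exact h3 hxj
        · exact h2 ⟨j, hj, hxj⟩
      · rintro ⟨h1, h2⟩
        refine ⟨⟨h1, ?_⟩, ?_⟩
        · rintro ⟨j, hj, hxj⟩
          exact h2 ⟨j, Or.inr hj, hxj⟩
        · intro hxk
          exact h2 ⟨k, Or.inl rfl, hxk⟩
    rw [← hset] at hg ⊢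
    obtain ⟨h1, hc1, hb1⟩ := fill_one hclosed (he k mk) hkZ hg (hS k mk)
    have hS1 : ∀ j ∈ J, Cob (e j '' sphere 0 1) h1 := by
      intro j hj
      have hsub : e j '' sphere 0 1 ⊆ (Z \ ⋃ j ∈ J, e j '' ball 0 1) \ e k '' ball 0 1 := by
        intro x hx
        refine ⟨⟨heZ j (mJ j hj) (hsb j hx), ?_⟩, ?_⟩
        · intro hx'
          simp only [mem_iUnion] at hx'
          obtain ⟨i, hi, hxi⟩ := hx'
          by_cases hij : i = j
          · subst hij
            obtain ⟨z, hz, rfl⟩ := hx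
            obtain ⟨w, hw, hwz⟩ := hxi
            have := (he i (mJ i hi)).injective hwz
            subst this
            rw [mem_sphere] at hz
            rw [mem_ball, hz] at hw
            exact lt_irrefl _ hw
          · exact (Set.disjoint_left.1 (hdis i (mJ i hi) j (mJ j hj) hij)) (hcb i hxi) (hsb j hx)
        · intro hxk
          exact (Set.disjoint_left.1 (hdis j (mJ j hj) k mk (hkJ j hj))) (hsb j hx) (hcb k hxk)
      exact (Cob.congr (hb1.mono hsub)).1 (hS j (mJ j hj))
    obtain ⟨h2, hc2, hb2⟩ := ih (fun j hj => he j (mJ j hj)) (fun j hj => heZ j (mJ j hj))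
      (fun i hi j hj => hdis i (mJ i hi) j (mJ j hj)) hc1 hS1
    exact ⟨h2, hc2, hb1.trans (hb2.mono diff_subset)⟩

end Pool.Agent.H61.PO
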