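import Pool.Agent.H61.PR.Fill
import Pool.Agent.H61.PO.Ext
import Pool.Agent.H61.PO.Disconn

/-!
# PR-04: moving a class with nonzero residue from one disc to another disc

Notation `B = ball 0 1`, `S = sphere 0 1`.
`res_chart`: pull back by `e0`: `Δ = e0 ⁻¹' (e '' B)` open in `ball 0 1`, preconnected (image of the connected `e '' B ⊆ range e0` under the inverse of `e0`), `Y = closedBall 0 1 \ Δ` compact, `Y ⊇ sphere 0 1`.
`w = fun a b => g (e0 a) (e0 b)` is a cocycle on `Y` (`Coc.pullback`), a coboundary on the circle (`e0 '' sphere 0 1 ⊆ (e0 '' ball 0 1)ᶜ`).  `ball 0 1 \ Y = Δ` is preconnected, so `Cob Y w` by `disconn`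
(contraposed).  `e '' S = e0 '' Y'` with `Y' ⊆ Y` (the closed disc of `e` is in `e0 '' ball 0 1`, `e '' S` misses `e '' B`): push the primitive forward (`Cob.pullback` with the inverse of `e0`, continuous on
`range e0`): `Cob (e '' S) g`.
`res_move_loc`: `ext_main` with `Z = univ`, `U = e0 '' ball 0 1` (preconnected), disc `e'`: `g'` with `Coc (e' '' B)ᶜ g'`, `Cob (e0 '' ball 0 1)ᶜ (g + g')`.  `Wᶜ ⊆ (e0 '' ball 0 1)ᶜ`: so `Cob Wᶜ g'`.  If `Cob (e' '' S) g'` then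
`fill_one` gives `G` with `Coc univ G`, `Cob (e' '' B)ᶜ (g' + G)`; `w = g + G`: `Coc (e '' B)ᶜ w`, `Cob (e0 '' ball 0 1)ᶜ w`; `res_chart`: `Cob (e '' S) w`; and `Cob (e '' S) G` (`disc_triv`): so
`Cob (e '' S) g`: contradiction.
`res_move`: call a disc (closed disc in `W`) `charged` if it has such a `g`.  Let `A = {x ∈ W | there is an open O ∋ x, O ⊆ W, such that all discs with closed disc in O are charged}`.  Let `e` be charged.
(i) all discs with closed disc in `e '' ball 0 r` are charged, where `r > 1` is such that `e '' ball 0 r ⊆ W`: apply `res_move_loc` with `e0 z = e (r z)`; so `e 0 ∈ A`.  (ii) `A` is open.  (iii) `A` is closed in `W`: `x ∈ W` a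
limit of `A`: chart `e0` at `x` with `range e0 ⊆ W` (`Surf`); `y ∈ A ∩ e0 '' ball 0 1`; a disc `e'` with centre `y` and range in `O_y ∩ e0 '' ball 0 1` (`Surf`) is charged; by `res_move_loc` all discs with closed disc in
`e0 '' ball 0 1` are charged.  So `A = W` (preconnected).  (iv) for `e'` arbitrary with closed disc in `W`: `e' 0 ∈ A`; a tiny disc `e''` around `e' 0` with range in `O ∩ e' '' ball 0 1` is charged; `res_move_loc` with
`e0 z = e' (r z)`, `r > 1`, `e' '' ball 0 r ⊆ W`.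
-/

namespace Pool.Agent.H61.PO

open Set Filter Topology Metric

variable {M : Type*} [MetricSpace M] [CompactSpace M]

theorem res_chart {e0 e : ℂ → M} (he0 : IsOpenEmbedding e0) (he : IsOpenEmbedding e)
    (h : e '' closedBall 0 1 ⊆ e0 '' ball 0 1) {g : M → M → ZMod 2}
    (hg : Coc (e '' ball 0 1)ᶜ g) (hc : Cob (e0 '' ball 0 1)ᶜ g) : Cob (e '' sphere 0 1) g := by
  have hDo : IsOpen (e0 ⁻¹' (e '' ball (0 : ℂ) 1)) :=
    (he.isOpenMap _ isOpen_ball).preimage he0.continuous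
  have hDb : e0 ⁻¹' (e '' ball (0 : ℂ) 1) ⊆ ball 0 1 := by
    intro z hz
    obtain ⟨z', hz', h1⟩ := h (image_mono ball_subset_closedBall hz)
    rwa [← he0.injective h1]
  have hY : IsCompact (closedBall (0 : ℂ) 1 \ e0 ⁻¹' (e '' ball (0 : ℂ) 1)) :=
    (isCompact_closedBall (0 : ℂ) 1).diff hDo
  have hns : ∀ z ∈ sphere (0 : ℂ) 1, z ∉ ball (0 : ℂ) 1 := by
    intro z hz hb
    rw [mem_sphere] at hz
    rw [mem_ball, hz] at hb
    exact lt_irrefl _ hb
  have hS : sphere (0 : ℂ) 1 ⊆ closedBall (0 : ℂ) 1 \ e0 ⁻¹' (e '' ball (0 : ℂ) 1) :=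
    fun z hz => ⟨sphere_subset_closedBall hz, fun hzD => hns z hz (hDb hzD)⟩
  have hw : Coc (closedBall (0 : ℂ) 1 \ e0 ⁻¹' (e '' ball (0 : ℂ) 1))
      (fun a b => g (e0 a) (e0 b)) :=
    hg.pullback he0.continuous.continuousOn fun z hz hz' => hz.2 hz'
  have hwS : Cob (sphere (0 : ℂ) 1) (fun a b => g (e0 a) (e0 b)) := by
    refine hc.pullback he0.continuous.continuousOn ?_
    rintro z hz ⟨z', hz', h1⟩
    rw [he0.injective h1] at hz'
    exact hns z hz hz'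
  have hbY : ball (0 : ℂ) 1 \ (closedBall (0 : ℂ) 1 \ e0 ⁻¹' (e '' ball (0 : ℂ) 1)) =
      e0 ⁻¹' (e '' ball (0 : ℂ) 1) := by
    ext z
    constructor
    · rintro ⟨h1, h2⟩
      by_contra h3
      exact h2 ⟨ball_subset_closedBall h1, h3⟩
    · intro h1
      exact ⟨hDb h1, fun h2 => h2.2 h1⟩
  have hrange : e '' ball (0 : ℂ) 1 ⊆ range e0 :=
    (image_mono ball_subset_closedBall).trans (h.trans (image_subset_range _ _))
  have hDc : IsPreconnected (e0 ⁻¹' (e '' ball (0 : ℂ) 1)) :=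
    (((convex_ball (0 : ℂ) 1).isPreconnected).image e
      he.continuous.continuousOn).preimage_of_isOpenMap he0.injective he0.isOpenMap hrange
  have hCY : Cob (closedBall (0 : ℂ) 1 \ e0 ⁻¹' (e '' ball (0 : ℂ) 1))
      (fun a b => g (e0 a) (e0 b)) := by
    by_contra hn
    refine disconn hY one_pos hS sdiff_subset hw hwS hn ?_
    rw [hbY]
    exact hDc
  have hinv : ∀ z, Function.invFun e0 (e0 z) = z := Function.leftInverse_invFun he0.injective
  have hcont : ContinuousOn (Function.invFun e0) (e '' sphere (0 : ℂ) 1) := by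
    intro x hx
    obtain ⟨z, -, rfl⟩ := h (image_mono sphere_subset_closedBall hx)
    refine ContinuousAt.continuousWithinAt ?_
    change Tendsto (Function.invFun e0) (𝓝 (e0 z)) (𝓝 (Function.invFun e0 (e0 z)))
    rw [← he0.map_nhds_eq z, hinv, tendsto_map'_iff]
    exact tendsto_id.congr fun w => (hinv w).symm
  have hmaps : MapsTo (Function.invFun e0) (e '' sphere (0 : ℂ) 1)
      (closedBall (0 : ℂ) 1 \ e0 ⁻¹' (e '' ball (0 : ℂ) 1)) := by
    intro x hx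
    obtain ⟨z, hz, rfl⟩ := h (image_mono sphere_subset_closedBall hx)
    rw [hinv]
    refine ⟨ball_subset_closedBall hz, ?_⟩
    rintro ⟨a, ha, ha'⟩
    obtain ⟨b, hb, hb'⟩ := hx
    rw [← hb'] at ha'
    rw [he.injective ha'] at ha
    exact hns b hb ha
  refine (hCY.pullback hcont hmaps).of_eqOn fun a ha b hb => ?_
  obtain ⟨z, -, rfl⟩ := h (image_mono sphere_subset_closedBall ha)
  obtain ⟨z', -, rfl⟩ := h (image_mono sphere_subset_closedBall hb)
  change g (e0 (Function.invFun e0 (e0 z))) (e0 (Function.invFun e0 (e0 z'))) = _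
  rw [hinv, hinv]

theorem res_move_loc (hM : Surf M) {W : Set M} {e0 e e' : ℂ → M} (he0 : IsOpenEmbedding e0)
    (he : IsOpenEmbedding e) (he' : IsOpenEmbedding e') (h : e '' closedBall 0 1 ⊆ e0 '' ball 0 1)
    (h' : e' '' closedBall 0 1 ⊆ e0 '' ball 0 1) (hW : e0 '' ball 0 1 ⊆ W)
    {g : M → M → ZMod 2} (hg : Coc (e '' ball 0 1)ᶜ g) (hc : Cob Wᶜ g)
    (hn : ¬ Cob (e '' sphere 0 1) g) :
    ∃ g' : M → M → ZMod 2, Coc (e' '' ball 0 1)ᶜ g' ∧ Cob Wᶜ g' ∧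
      ¬ Cob (e' '' sphere 0 1) g' := by
  have hUo : IsOpen (e0 '' ball 0 1) := he0.isOpenMap _ isOpen_ball
  have hUc : IsPreconnected (e0 '' ball 0 1) :=
    (convex_ball (0:ℂ) 1).isPreconnected.image _ he0.continuous.continuousOn
  have hsub : (e0 '' ball 0 1)ᶜ ⊆ (e '' ball 0 1)ᶜ :=
    compl_subset_compl.2 ((image_mono ball_subset_closedBall).trans h)
  have hsub' : (e0 '' ball 0 1)ᶜ ⊆ (e' '' ball 0 1)ᶜ :=
    compl_subset_compl.2 ((image_mono ball_subset_closedBall).trans h')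
  have hWU : Wᶜ ⊆ (e0 '' ball 0 1)ᶜ := compl_subset_compl.2 hW
  have hd : ∀ A : Set M, univ \ A = Aᶜ := fun A => (compl_eq_univ_sdiff A).symm
  obtain ⟨g', k1, k2⟩ := ext_main hM isCompact_univ hUo (subset_univ _) hUc he' h'
    (g := g) (by rw [hd]; exact hg.mono hsub)
  rw [hd] at k1 k2
  refine ⟨g', k1, (Cob.congr (k2.mono hWU)).1 hc, fun hS => hn ?_⟩
  obtain ⟨G, k3, k4⟩ := fill_one isClosed_univ he' (subset_univ _) (g := g')
    (by rw [hd]; exact k1) hS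
  rw [hd] at k4
  have k5 : Coc (e '' ball 0 1)ᶜ (g + G) := hg.add (k3.mono (subset_univ _))
  have k6 : Cob (e0 '' ball 0 1)ᶜ (g + G) := k2.trans (k4.mono hsub')
  have k7 := res_chart he0 he h k5 k6
  have k8 : Cob (e '' sphere 0 1) G :=
    (disc_triv he G (k3.mono (subset_univ _))).mono (image_mono sphere_subset_closedBall)
  exact (Cob.congr k7).2 k8

private def rmChg (W : Set M) (e : ℂ → M) : Prop :=
  ∃ g : M → M → ZMod 2, Coc (e '' ball 0 1)ᶜ g ∧ Cob Wᶜ g ∧ ¬ Cob (e '' sphere 0 1) g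

private lemma rm_loc (hM : Surf M) {W : Set M} {e0 e e' : ℂ → M} (he0 : IsOpenEmbedding e0)
    (he : IsOpenEmbedding e) (he' : IsOpenEmbedding e') (h : e '' closedBall 0 1 ⊆ e0 '' ball 0 1)
    (h' : e' '' closedBall 0 1 ⊆ e0 '' ball 0 1) (hW : e0 '' ball 0 1 ⊆ W)
    (hc : rmChg W e) : rmChg W e' := by
  obtain ⟨g, h1, h2, h3⟩ := hc
  exact res_move_loc hM he0 he he' h h' hW h1 h2 h3

private lemma rm_scale {W : Set M} (hW : IsOpen W) {e : ℂ → M} (he : IsOpenEmbedding e)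
    (h : e '' closedBall 0 1 ⊆ W) :
    ∃ e0 : ℂ → M, IsOpenEmbedding e0 ∧ e '' closedBall 0 1 ⊆ e0 '' ball 0 1 ∧
      e0 '' ball 0 1 ⊆ W := by
  have hop : IsOpen (e ⁻¹' W) := hW.preimage he.continuous
  obtain ⟨δ, hδ, hsub⟩ := (isCompact_closedBall (0 : ℂ) 1).exists_thickening_subset_open hop
    (image_subset_iff.1 h)
  have hr : (0 : ℝ) < δ + 1 := by linarith
  have hrc : ((δ + 1 : ℝ) : ℂ) ≠ 0 := by exact_mod_cast hr.ne'
  have hball : ball (0 : ℂ) (δ + 1) ⊆ e ⁻¹' W := by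
    refine Subset.trans ?_ hsub
    intro z hz
    rw [mem_ball_zero_iff] at hz
    rw [mem_thickening_iff]
    by_cases hz1 : ‖z‖ ≤ 1
    · exact ⟨z, by rw [mem_closedBall_zero_iff]; exact hz1, by rw [dist_self]; exact hδ⟩
    · rw [not_le] at hz1
      have hz0 : (0 : ℝ) < ‖z‖ := by linarith
      refine ⟨((‖z‖⁻¹ : ℝ) : ℂ) * z, ?_, ?_⟩
      · rw [mem_closedBall_zero_iff, norm_mul, Complex.norm_real, Real.norm_eq_abs,
          abs_of_pos (inv_pos.2 hz0), inv_mul_cancel₀ hz0.ne']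
      · rw [dist_eq_norm]
        have e1 : z - ((‖z‖⁻¹ : ℝ) : ℂ) * z = ((1 - ‖z‖⁻¹ : ℝ) : ℂ) * z := by
          push_cast; ring
        rw [e1, norm_mul, Complex.norm_real, Real.norm_eq_abs, abs_of_nonneg
          (by rw [sub_nonneg]; exact inv_le_one_of_one_le₀ hz1.le), sub_mul, one_mul,
          inv_mul_cancel₀ hz0.ne']
        linarith
  refine ⟨fun z => e (((δ + 1 : ℝ) : ℂ) * z),
    he.comp (Homeomorph.mulLeft₀ _ hrc).isOpenEmbedding, ?_, ?_⟩
  · rintro _ ⟨z, hz, rfl⟩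
    rw [mem_closedBall_zero_iff] at hz
    refine ⟨(((δ + 1 : ℝ) : ℂ))⁻¹ * z, ?_, ?_⟩
    · rw [mem_ball_zero_iff, norm_mul, norm_inv, Complex.norm_real, Real.norm_eq_abs,
        abs_of_pos hr, inv_mul_lt_iff₀ hr]
      linarith
    · show e (((δ + 1 : ℝ) : ℂ) * ((((δ + 1 : ℝ) : ℂ))⁻¹ * z)) = e z
      rw [← mul_assoc, mul_inv_cancel₀ hrc, one_mul]
  · rintro _ ⟨z, hz, rfl⟩
    rw [mem_ball_zero_iff] at hz
    refine hball ?_
    rw [mem_ball_zero_iff, norm_mul, Complex.norm_real, Real.norm_eq_abs, abs_of_pos hr]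
    nlinarith

private lemma rm_sub_range {e : ℂ → M} {V : Set M} (h : range e ⊆ V) :
    e '' closedBall 0 1 ⊆ V := (image_subset_range _ _).trans h

theorem res_move (hM : Surf M) {W : Set M} (hW : IsOpen W) (hcW : IsPreconnected W)
    {e e' : ℂ → M} (he : IsOpenEmbedding e) (he' : IsOpenEmbedding e')
    (h : e '' closedBall 0 1 ⊆ W) (h' : e' '' closedBall 0 1 ⊆ W)
    {g : M → M → ZMod 2} (hg : Coc (e '' ball 0 1)ᶜ g) (hc : Cob Wᶜ g)
    (hn : ¬ Cob (e '' sphere 0 1) g) :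
    ∃ g' : M → M → ZMod 2, Coc (e' '' ball 0 1)ᶜ g' ∧ Cob Wᶜ g' ∧
      ¬ Cob (e' '' sphere 0 1) g' := by
  have hch : rmChg W e := ⟨g, hg, hc, hn⟩
  let A : Set M := {x | ∃ O : Set M, IsOpen O ∧ x ∈ O ∧ O ⊆ W ∧
    ∀ f : ℂ → M, IsOpenEmbedding f → f '' closedBall 0 1 ⊆ O → rmChg W f}
  have hAopen : IsOpen A := by
    rw [isOpen_iff_mem_nhds]
    rintro x ⟨O, hO, hx, hOW, hf⟩
    exact mem_of_superset (hO.mem_nhds hx) fun y hy => ⟨O, hO, hy, hOW, hf⟩
  have hz0 : (0 : ℂ) ∈ ball (0 : ℂ) 1 := mem_ball_self one_pos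
  have hz1 : (0 : ℂ) ∈ closedBall (0 : ℂ) 1 := mem_closedBall_self zero_le_one
  -- the centre of `e` is in `A`
  have hAe : e 0 ∈ A := by
    obtain ⟨e0, he0, h1, h2⟩ := rm_scale hW he h
    exact ⟨e0 '' ball 0 1, he0.isOpenMap _ isOpen_ball, h1 ⟨0, hz1, rfl⟩, h2,
      fun f hf hsub => rm_loc hM he0 he hf h1 hsub h2 hch⟩
  have heW : e 0 ∈ W := h ⟨0, hz1, rfl⟩
  have hclosed : closure A ∩ W ⊆ A := by
    rintro x ⟨hxA, hxW⟩
    obtain ⟨e0, he0, hx0, hr⟩ := hM x W (hW.mem_nhds hxW)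
    have hOo : IsOpen (e0 '' ball 0 1) := he0.isOpenMap _ isOpen_ball
    have hxO : x ∈ e0 '' ball 0 1 := ⟨0, hz0, hx0⟩
    have hOW : e0 '' ball 0 1 ⊆ W := (image_subset_range _ _).trans hr
    obtain ⟨y, hyO, O, hO, hy, _, hf⟩ := mem_closure_iff.1 hxA _ hOo hxO
    obtain ⟨e2, he2, _, hr2⟩ := hM y (O ∩ e0 '' ball 0 1) ((hO.inter hOo).mem_nhds ⟨hy, hyO⟩)
    have hc2 : rmChg W e2 := hf e2 he2 ((rm_sub_range hr2).trans inter_subset_left)
    exact ⟨e0 '' ball 0 1, hOo, hxO, hOW, fun f hf1 hsub =>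
      rm_loc hM he0 he2 hf1 ((rm_sub_range hr2).trans inter_subset_right) hsub hOW hc2⟩
  have hWA : W ⊆ A := hcW.subset_of_closure_inter_subset hAopen ⟨e 0, heW, hAe⟩ hclosed
  have he'W : e' 0 ∈ W := h' ⟨0, hz1, rfl⟩
  obtain ⟨O, hO, hy, _, hf⟩ := hWA he'W
  obtain ⟨e0, he0, h1, h2⟩ := rm_scale hW he' h'
  have hOo : IsOpen (e0 '' ball 0 1) := he0.isOpenMap _ isOpen_ball
  obtain ⟨e2, he2, _, hr2⟩ := hM (e' 0) (O ∩ e0 '' ball 0 1)
    ((hO.inter hOo).mem_nhds ⟨hy, h1 ⟨0, hz1, rfl⟩⟩)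
  have hc2 : rmChg W e2 := hf e2 he2 ((rm_sub_range hr2).trans inter_subset_left)
  exact rm_loc hM he0 he2 he' ((rm_sub_range hr2).trans inter_subset_right) h1 h2 hc2

end Pool.Agent.H61.PO
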