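import Pool.Agent.H61.PO.Discs

/-!
# PR-03: an open connected set minus a closed disc is connected

`annulus_conn`: `ball 0 r \ closedBall 0 1` is the image of the connected set `Ioo 1 r ×ˢ univ` under `(ρ, t) ↦ ρ * exp (i t)`.
`conn_minus_disc`: `e ⁻¹' V` is open and contains the compact `closedBall 0 1`, so it contains `ball 0 r` for some `r > 1`.
Suppose `V \ e '' closedBall 0 1 ⊆ A ∪ B`, `A`, `B` open disjoint (on this set).  The annulus `e '' (ball 0 r \ closedBall 0 1)` is connected: it is in `A`, say.  Then `A' = (A ∩ V \ closed disc) ∪ e '' ball 0 r`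
and `B' = B ∩ (V \ closed disc)` are open, disjoint and cover `V`; `V` is preconnected and meets `A'`: `B'` is empty.
-/

namespace Pool.Agent.H61.PO

open Set Filter Topology Metric

theorem annulus_conn {r : ℝ} (hr : 1 < r) : IsPreconnected (ball (0 : ℂ) r \ closedBall 0 1) := by
  have he : ball (0 : ℂ) r \ closedBall 0 1 =
      (fun x : ℝ × ℝ => (x.1 : ℂ) * Complex.exp (x.2 * Complex.I)) ''
        (Ioo (1 : ℝ) r ×ˢ (univ : Set ℝ)) := by
    ext z
    constructor
    · rintro ⟨h1, h2⟩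
      rw [mem_ball_zero_iff] at h1
      rw [mem_closedBall_zero_iff, not_le] at h2
      exact ⟨(‖z‖, Complex.arg z), ⟨⟨h2, h1⟩, mem_univ _⟩, Complex.norm_mul_exp_arg_mul_I z⟩
    · rintro ⟨⟨ρ, t⟩, ⟨⟨h1, h2⟩, -⟩, rfl⟩
      have h1' : 1 < ρ := h1
      have h2' : ρ < r := h2
      have hn : ‖(ρ : ℂ) * Complex.exp (t * Complex.I)‖ = ρ := by
        rw [norm_mul, Complex.norm_exp_ofReal_mul_I, mul_one, Complex.norm_real, Real.norm_eq_abs,
          abs_of_pos (by linarith)]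
      refine ⟨?_, ?_⟩
      · rw [mem_ball_zero_iff]
        exact hn.trans_lt h2'
      · rw [mem_closedBall_zero_iff, not_le]
        exact h1'.trans_eq hn.symm
  rw [he]
  refine (isPreconnected_Ioo.prod isPreconnected_univ).image _ ?_
  fun_prop

private theorem Punct_aux {X : Type*} [TopologicalSpace X] {V D N A u v : Set X} (hV : IsOpen V)
    (hD : IsClosed D) (hN : IsOpen N) (hc : IsPreconnected V) (hDV : D ⊆ V) (hDN : D ⊆ N)
    (hDe : D.Nonempty) (hA : N \ D ⊆ A) (hAu : A ⊆ u) (hu : IsOpen u) (hv : IsOpen v)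
    (huv : V \ D ⊆ u ∪ v) (hd : (V \ D) ∩ (u ∩ v) = ∅) : V \ D ⊆ u := by
  have hW : IsOpen (V \ D) := hV.sdiff hD
  rw [isPreconnected_iff_subset_of_disjoint] at hc
  have h1 := hc ((u ∩ (V \ D)) ∪ N) (v ∩ (V \ D)) ((hu.inter hW).union hN) (hv.inter hW)
    (by
      intro x hx
      by_cases hxD : x ∈ D
      · exact Or.inl (Or.inr (hDN hxD))
      · rcases huv ⟨hx, hxD⟩ with h | h
        · exact Or.inl (Or.inl ⟨h, hx, hxD⟩)
        · exact Or.inr ⟨h, hx, hxD⟩)
    (by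
      rw [Set.eq_empty_iff_forall_notMem] at hd ⊢
      rintro x ⟨hx, h2, h3⟩
      rcases h2 with h2 | h2
      · exact hd x ⟨h3.2, h2.1, h3.1⟩
      · exact hd x ⟨h3.2, hAu (hA ⟨h2, h3.2.2⟩), h3.1⟩)
  rcases h1 with h1 | h1
  · intro x hx
    rcases h1 hx.1 with h2 | h2
    · exact h2.1
    · exact hAu (hA ⟨h2, hx.2⟩)
  · obtain ⟨x, hx⟩ := hDe
    exact absurd hx (h1 (hDV hx)).2.2

theorem conn_minus_disc {X : Type*} [MetricSpace X] {V : Set X} (hV : IsOpen V)
    (hc : IsPreconnected V) {e : ℂ → X} (he : IsOpenEmbedding e) (heV : e '' closedBall 0 1 ⊆ V) :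
    IsPreconnected (V \ e '' closedBall 0 1) := by
  have hcp : IsCompact (closedBall (0 : ℂ) 1) := isCompact_closedBall 0 1
  obtain ⟨δ, hδ, hδV⟩ := hcp.exists_thickening_subset_open (hV.preimage he.continuous)
    (fun z hz => heV ⟨z, hz, rfl⟩)
  rw [thickening_closedBall hδ zero_le_one] at hδV
  have hr : 1 < δ + 1 := by linarith
  have hcl : IsClosed (e '' closedBall 0 1) := (hcp.image he.continuous).isClosed
  have hA : IsPreconnected (e '' (ball (0 : ℂ) (δ + 1) \ closedBall 0 1)) :=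
    (annulus_conn hr).image e he.continuous.continuousOn
  have hN : IsOpen (e '' ball (0 : ℂ) (δ + 1)) := he.isOpenMap _ isOpen_ball
  have hAN : e '' ball (0 : ℂ) (δ + 1) \ e '' closedBall 0 1 ⊆
      e '' (ball (0 : ℂ) (δ + 1) \ closedBall 0 1) := by
    rintro x ⟨⟨z, hz, rfl⟩, h2⟩
    exact ⟨z, ⟨hz, fun h => h2 ⟨z, h, rfl⟩⟩, rfl⟩
  have hAW : e '' (ball (0 : ℂ) (δ + 1) \ closedBall 0 1) ⊆ V \ e '' closedBall 0 1 := by
    rintro x ⟨z, hz, rfl⟩
    refine ⟨hδV hz.1, ?_⟩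
    rintro ⟨w, hw, h2⟩
    rw [he.injective h2] at hw
    exact hz.2 hw
  have hDN : e '' closedBall 0 1 ⊆ e '' ball (0 : ℂ) (δ + 1) :=
    image_mono (closedBall_subset_ball hr)
  have hDe : (e '' closedBall (0 : ℂ) 1).Nonempty :=
    ⟨e 0, 0, mem_closedBall_self zero_le_one, rfl⟩
  rw [isPreconnected_iff_subset_of_disjoint]
  intro u v hu hv huv hd
  rw [isPreconnected_iff_subset_of_disjoint] at hA
  have hd' : e '' (ball (0 : ℂ) (δ + 1) \ closedBall 0 1) ∩ (u ∩ v) = ∅ :=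
    subset_empty_iff.1 (hd ▸ inter_subset_inter_left _ hAW)
  rcases hA u v hu hv (hAW.trans huv) hd' with h | h
  · exact Or.inl (Punct_aux hV hcl hN hc heV hDN hDe hAN h hu hv huv hd)
  · refine Or.inr (Punct_aux hV hcl hN hc heV hDN hDe hAN h hv hu ?_ ?_)
    · rw [union_comm]
      exact huv
    · rw [inter_comm v u]
      exact hd

end Pool.Agent.H61.PO
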