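import Pool.Agent.H61.PR.Fill
import Pool.Agent.H61.PR.Punct
import Pool.Agent.H61.PO.Ext

/-!
# PR-05: good open sets and path classes

`GoodV V`: `V` is open, preconnected, and a class on the complement of a disc in `V` which is trivial outside `V` is trivial on the circle of the disc.
`path_class`: `Z = (e1 '' ball 0 1)ᶜ` compact, `U = V \ e1 '' closedBall 0 1` (open, preconnected by `conn_minus_disc`, `⊆ Z`), `Z \ U = Vᶜ ∪ e1 '' sphere 0 1` (disjoint closed sets: `e1 '' closedBall 0 1 ⊆ V`).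
`g0` a cocycle on `Z \ U` equivalent to `0` on `Vᶜ` and not a coboundary on `e1 '' sphere 0 1`: `SCC.class` (`scc_disc`) and `glue` with `0` (empty intersection: `Cob ∅` is trivial).  `ext_main` for the disc `e2`
(`e2 '' closedBall 0 1 ⊆ U`): `Θ` with `Coc (Z \ e2 '' ball 0 1) Θ`, `Cob (Z \ U) (g0 + Θ)`.  So `Cob Vᶜ Θ`, `¬ Cob (e1 '' sphere 0 1) Θ`.  If `Cob (e2 '' sphere 0 1) Θ` then `fill_one` (in `Z`) gives `Θ'` with
`Coc Z Θ'`, `Cob (Z \ e2 '' ball 0 1) (Θ + Θ')`, so `Cob Vᶜ Θ'` and by `GoodV` (disc `e1`) `Cob (e1 '' sphere 0 1) Θ'`, so `Cob (e1 '' sphere 0 1) Θ`: contradiction.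
-/

namespace Pool.Agent.H61.PO

open Set Filter Topology Metric

variable {M : Type*} [MetricSpace M]

def GoodV (V : Set M) : Prop :=
  IsOpen V ∧ IsPreconnected V ∧ ∀ e : ℂ → M, IsOpenEmbedding e → e '' closedBall 0 1 ⊆ V →
    ∀ w : M → M → ZMod 2, Coc (e '' ball 0 1)ᶜ w → Cob Vᶜ w → Cob (e '' sphere 0 1) w

theorem path_class [CompactSpace M] (hM : Surf M) {V : Set M} (hV : GoodV V) {e1 e2 : ℂ → M}
    (he1 : IsOpenEmbedding e1) (he2 : IsOpenEmbedding e2) (h1 : e1 '' closedBall 0 1 ⊆ V)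
    (h2 : e2 '' closedBall 0 1 ⊆ V)
    (hd : Disjoint (e1 '' closedBall 0 1) (e2 '' closedBall 0 1)) :
    ∃ Θ : M → M → ZMod 2, Coc (e1 '' ball 0 1 ∪ e2 '' ball 0 1)ᶜ Θ ∧ Cob Vᶜ Θ ∧
      ¬ Cob (e1 '' sphere 0 1) Θ ∧ ¬ Cob (e2 '' sphere 0 1) Θ := by
  have hVo : IsOpen V := hV.1
  have hs1 : e1 '' ball 0 1 ⊆ e1 '' closedBall 0 1 := image_mono ball_subset_closedBall
  have hs2 : e2 '' ball 0 1 ⊆ e2 '' closedBall 0 1 := image_mono ball_subset_closedBall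
  have hS1 : e1 '' sphere 0 1 ⊆ e1 '' closedBall 0 1 := image_mono sphere_subset_closedBall
  have hD1 : IsOpen (e1 '' ball 0 1) := he1.isOpenMap _ isOpen_ball
  have hC1 : IsClosed (e1 '' closedBall 0 1) :=
    ((isCompact_closedBall (0 : ℂ) 1).image he1.continuous).isClosed
  have hSc : IsClosed (e1 '' sphere 0 1) :=
    ((isCompact_sphere (0 : ℂ) 1).image he1.continuous).isClosed
  have hZc : IsClosed (e1 '' ball 0 1)ᶜ := hD1.isClosed_compl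
  have hUo : IsOpen (V \ e1 '' closedBall 0 1) := hVo.sdiff hC1
  have hUZ : V \ e1 '' closedBall 0 1 ⊆ (e1 '' ball 0 1)ᶜ := fun x hx hx' => hx.2 (hs1 hx')
  have hUc : IsPreconnected (V \ e1 '' closedBall 0 1) := conn_minus_disc hVo hV.2.1 he1 h1
  have hS1Z : e1 '' sphere 0 1 ⊆ (e1 '' ball 0 1)ᶜ := by
    rintro x ⟨z, hz, rfl⟩ ⟨w, hw, hwz⟩
    rw [he1.injective hwz] at hw
    rw [mem_sphere] at hz
    rw [mem_ball] at hw
    linarith
  have hVZ : Vᶜ ⊆ (e1 '' ball 0 1)ᶜ := fun x hx hx' => hx (h1 (hs1 hx'))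
  have hZU : (e1 '' ball 0 1)ᶜ \ (V \ e1 '' closedBall 0 1) = Vᶜ ∪ e1 '' sphere 0 1 := by
    apply Subset.antisymm
    · rintro x ⟨hxZ, hxU⟩
      by_cases hxV : x ∈ V
      · right
        have hxC : x ∈ e1 '' closedBall 0 1 := by
          by_contra hcon
          exact hxU ⟨hxV, hcon⟩
        obtain ⟨z, hz, rfl⟩ := hxC
        refine ⟨z, ?_, rfl⟩
        have hzb : z ∉ ball (0 : ℂ) 1 := fun hzb => hxZ ⟨z, hzb, rfl⟩
        rw [mem_closedBall] at hz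
        rw [mem_ball, not_lt] at hzb
        rw [mem_sphere]
        exact le_antisymm hz hzb
      · exact Or.inl hxV
    · rintro x (hx | hx)
      · exact ⟨hVZ hx, fun hxU => hx hxU.1⟩
      · exact ⟨hS1Z hx, fun hxU => hxU.2 (hS1 hx)⟩
  obtain ⟨γ, hγ, hγn⟩ := (scc_disc he1).class
  have hempty : Vᶜ ∩ e1 '' sphere 0 1 = ∅ := by
    rw [← disjoint_iff_inter_eq_empty, Set.disjoint_left]
    intro x hx hx'
    exact hx (h1 (hS1 hx'))
  have hcob0 : Cob (Vᶜ ∩ e1 '' sphere 0 1) ((fun _ _ => (0 : ZMod 2)) + γ) := by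
    rw [hempty]
    exact ⟨fun _ => 0, fun x hx => absurd hx (notMem_empty x)⟩
  obtain ⟨g0, hg0, hg0V, hg0S⟩ := glue hVo.isClosed_compl hSc (Coc.zero _) hγ hcob0
  have he2U : e2 '' closedBall 0 1 ⊆ V \ e1 '' closedBall 0 1 := fun x hx =>
    ⟨h2 hx, fun hx' => Set.disjoint_left.1 hd hx' hx⟩
  rw [← hZU] at hg0
  obtain ⟨Θ, hΘ, hΘU⟩ := ext_main hM hZc.isCompact hUo hUZ hUc he2 he2U hg0
  rw [hZU] at hΘU
  have hΘV : Cob Vᶜ Θ := by
    have a1 : Cob Vᶜ (g0 + Θ) := hΘU.mono subset_union_left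
    exact (Cob.congr a1).1 ((Cob.congr hg0V).2 (Cob.zero _))
  have hΘS : ¬ Cob (e1 '' sphere 0 1) Θ := by
    intro hc
    have a1 : Cob (e1 '' sphere 0 1) (g0 + Θ) := hΘU.mono subset_union_right
    exact hγn ((Cob.congr hg0S).1 ((Cob.congr a1).2 hc))
  have hset : (e1 '' ball 0 1 ∪ e2 '' ball 0 1)ᶜ = (e1 '' ball 0 1)ᶜ \ e2 '' ball 0 1 := by
    rw [compl_union, sdiff_eq]
  refine ⟨Θ, ?_, hΘV, hΘS, ?_⟩
  · rw [hset]
    exact hΘ
  · intro hc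
    obtain ⟨Θ', hΘ', hΘΘ'⟩ := fill_one hZc he2 (he2U.trans hUZ) hΘ hc
    have hV' : Vᶜ ⊆ (e1 '' ball 0 1)ᶜ \ e2 '' ball 0 1 := fun x hx =>
      ⟨hVZ hx, fun hx' => hx (h2 (hs2 hx'))⟩
    have hS' : e1 '' sphere 0 1 ⊆ (e1 '' ball 0 1)ᶜ \ e2 '' ball 0 1 := fun x hx =>
      ⟨hS1Z hx, fun hx' => Set.disjoint_left.1 hd (hS1 hx) (hs2 hx')⟩
    have b1 : Cob Vᶜ Θ' := (Cob.congr (hΘΘ'.mono hV')).1 hΘV
    have b2 : Cob (e1 '' sphere 0 1) Θ' := hV.2.2 e1 he1 h1 Θ' hΘ' b1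
    exact hΘS ((Cob.congr (hΘΘ'.mono hS')).2 b2)

end Pool.Agent.H61.PO
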