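import Pool.Agent.H61.PR.Fill
import Pool.Agent.H61.PO.Theta
import Pool.Agent.H61.PO.Ext
import Pool.Agent.H61.PO.Discs

/-!
# PR-02: planar generation: classes on a compact subset of the disc which contains the circle and on which they are trivial

`u` is a cocycle on an open `W ⊇ Y` (`taut1`: change `u` outside `Y × Y` only).  `K0 = closedBall 0 1 \ W` is compact, contained in `ball 0 1 \ Y`.  The components of the open set
`ball 0 1 \ Y` are open and disjoint: finitely many of them, `O_1, .., O_m`, cover `K0`; choose `c_j`, `r_j > 0` with `closedBall c_j r_j ⊆ O_j`.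
(1) `u` is a cocycle on `A0 = closedBall 0 1 \ ⋃ O_j ⊆ W`.  By induction on a finite set `J` of indices (adding one after the other) there is `v` with
`Coc (closedBall 0 1 \ (⋃ j ∉ J, O_j) \ ⋃ j ∈ J, ball c_j r_j) v` and `Cob A0 (u + v)`: `ext_main` (`surf_complex`) with `Z = closedBall 0 1 \ (⋃ j ∉ J ∪ {k}, O_j) \ ⋃ j ∈ J, ball c_j r_j`
(compact), `U = O_k`, `e z = c_k + r_k z` (`affine_disc`).  So `v` with `Coc (closedBall 0 1 \ ⋃ ball c_j r_j) v`, `Cob A0 (u + v)`; `Y ⊆ A0`.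
(2) `P = {c_j | ¬ Cob (sphere c_j r_j) v}`, `g = v + ∑ p ∈ P, th p`: a cocycle on `closedBall 0 1 \ ⋃ ball c_j r_j`; on `sphere c_j r_j` it is a coboundary: `th c_i`, `i ≠ j`, is (`th_out`:
`c_i ∉ closedBall c_j r_j`), and if `c_j ∈ P` both `v` and `th c_j` are not (`th_ball`), so the sum is (`SCC.two`).  `fill` (`Z = closedBall 0 1`): `g` is equivalent to a cocycle on
`closedBall 0 1`, which is a coboundary (`triv_star`).  So `Cob Y (v + ∑ th p)`, `Cob Y (u + ∑ th p)`.
(3) even: on `sphere 0 1` `u` is a coboundary, so `∑ p ∈ P, th p` is; `th p + th 0` is (`th_sphere`), `th 0` is not (`th_ball`): so `P.card` is even.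
-/

namespace Pool.Agent.H61.PO

open Set Filter Topology Metric

private theorem pg_coc_sum {A : Set ℂ} {ι : Type*} (P : Finset ι) {f : ι → ℂ → ℂ → ZMod 2}
    (h : ∀ p ∈ P, Coc A (f p)) : Coc A (∑ p ∈ P, f p) := by
  classical
  induction P using Finset.induction_on with
  | empty => rw [Finset.sum_empty]; exact Coc.zero A
  | insert a s ha ih =>
    rw [Finset.sum_insert ha]
    exact (h a (Finset.mem_insert_self a s)).add
      (ih fun p hp => h p (Finset.mem_insert_of_mem hp))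

private theorem pg_cob_sum {A : Set ℂ} {ι : Type*} (P : Finset ι) {f : ι → ℂ → ℂ → ZMod 2}
    (h : ∀ p ∈ P, Cob A (f p)) : Cob A (∑ p ∈ P, f p) := by
  classical
  induction P using Finset.induction_on with
  | empty => rw [Finset.sum_empty]; exact Cob.zero A
  | insert a s ha ih =>
    rw [Finset.sum_insert ha]
    exact (h a (Finset.mem_insert_self a s)).add
      (ih fun p hp => h p (Finset.mem_insert_of_mem hp))

private theorem pg_even {P : Finset ℂ} (hP : (P : Set ℂ) ⊆ ball 0 1)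
    (h : Cob (sphere 0 1) (∑ p ∈ P, th p)) : Even P.card := by
  by_contra hodd
  rw [Nat.not_even_iff_odd] at hodd
  have h1 : Cob (sphere (0 : ℂ) 1) (∑ p ∈ P, (th p + th 0)) :=
    pg_cob_sum P fun p hp => th_sphere (hP hp) (mem_ball_self one_pos)
  rw [Finset.sum_add_distrib, Finset.sum_const] at h1
  have h2 : (P.card • th 0 : ℂ → ℂ → ZMod 2) = th 0 := by
    funext a b
    rw [Pi.smul_apply, Pi.smul_apply, nsmul_eq_mul, ZMod.natCast_eq_one_iff_odd.2 hodd, one_mul]
  rw [h2] at h1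
  exact th_ball (mem_ball_self one_pos) (h1.congr.1 h)

private theorem pg_comps {Y W : Set ℂ} (hY : IsCompact Y) (hS : sphere 0 1 ⊆ Y) (hW : IsOpen W)
    (hYW : Y ⊆ W) :
    ∃ O : Finset (Set ℂ), (∀ o ∈ O, IsOpen o) ∧ (∀ o ∈ O, IsPreconnected o) ∧
      (∀ o ∈ O, o.Nonempty) ∧ (∀ o ∈ O, o ⊆ ball 0 1 \ Y) ∧
      (∀ o ∈ O, ∀ o' ∈ O, o ≠ o' → Disjoint o o') ∧
      closedBall 0 1 \ W ⊆ ⋃ o ∈ O, o := by
  classical
  have hop : IsOpen (ball (0 : ℂ) 1 \ Y) := isOpen_ball.sdiff hY.isClosed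
  have hK : IsCompact (closedBall (0 : ℂ) 1 \ W) := (isCompact_closedBall 0 1).diff hW
  have hKs : closedBall (0 : ℂ) 1 \ W ⊆ ball 0 1 \ Y := by
    rintro x ⟨hx1, hx2⟩
    have hxY : x ∉ Y := fun h => hx2 (hYW h)
    refine ⟨?_, hxY⟩
    rw [mem_ball]
    rw [mem_closedBall] at hx1
    refine lt_of_le_of_ne hx1 fun h => hxY (hS ?_)
    rw [mem_sphere]
    exact h
  obtain ⟨t, ht⟩ := hK.elim_nhds_subcover
    (fun x => connectedComponentIn (ball (0 : ℂ) 1 \ Y) x) (fun x hx =>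
      hop.connectedComponentIn.mem_nhds (mem_connectedComponentIn (hKs hx)))
  refine ⟨t.image fun x => connectedComponentIn (ball (0 : ℂ) 1 \ Y) x, ?_, ?_, ?_, ?_, ?_, ?_⟩
  · intro o ho
    obtain ⟨x, -, rfl⟩ := Finset.mem_image.1 ho
    exact hop.connectedComponentIn
  · intro o ho
    obtain ⟨x, -, rfl⟩ := Finset.mem_image.1 ho
    exact isPreconnected_connectedComponentIn
  · intro o ho
    obtain ⟨x, hx, rfl⟩ := Finset.mem_image.1 ho
    exact ⟨x, mem_connectedComponentIn (hKs (ht.1 x hx))⟩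
  · intro o ho
    obtain ⟨x, hx, rfl⟩ := Finset.mem_image.1 ho
    exact connectedComponentIn_subset _ _
  · intro o ho o' ho' hne
    obtain ⟨x, hx, rfl⟩ := Finset.mem_image.1 ho
    obtain ⟨x', hx', rfl⟩ := Finset.mem_image.1 ho'
    rw [disjoint_left]
    intro z hz hz'
    exact hne ((connectedComponentIn_eq hz).trans (connectedComponentIn_eq hz').symm)
  · intro x hx
    have := ht.2 hx
    simp only [mem_iUnion, Finset.mem_image, exists_prop] at this ⊢
    obtain ⟨y, hy, hxy⟩ := this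
    exact ⟨_, ⟨y, hy, rfl⟩, hxy⟩

private theorem pg_step {W : Set ℂ} {u : ℂ → ℂ → ZMod 2} (hu : Coc W u)
    {O : Finset (Set ℂ)} (hOo : ∀ o ∈ O, IsOpen o) (hOp : ∀ o ∈ O, IsPreconnected o)
    (hOb : ∀ o ∈ O, o ⊆ ball 0 1)
    (hOd : ∀ o ∈ O, ∀ o' ∈ O, o ≠ o' → Disjoint o o') (hOW : closedBall 0 1 \ W ⊆ ⋃ o ∈ O, o)
    {c : Set ℂ → ℂ} {r : Set ℂ → ℝ} (hr : ∀ o ∈ O, 0 < r o)
    (hcr : ∀ o ∈ O, closedBall (c o) (r o) ⊆ o) (J : Finset (Set ℂ)) :
    J ⊆ O → ∃ v : ℂ → ℂ → ZMod 2,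
      Coc (closedBall 0 1 \ ((⋃ o ∈ {o | o ∈ O ∧ o ∉ J}, o) ∪ ⋃ o ∈ J, ball (c o) (r o))) v ∧
      Cob (closedBall 0 1 \ ⋃ o ∈ O, o) (u + v) := by
  classical
  induction J using Finset.induction_on with
  | empty =>
    intro _
    refine ⟨u, hu.mono ?_, ?_⟩
    · rintro x ⟨hx1, hx2⟩
      by_contra hxW
      apply hx2
      left
      have := hOW ⟨hx1, hxW⟩
      simp only [mem_iUnion, exists_prop, mem_ofPred_eq, Finset.notMem_empty, not_false_eq_true,
        and_true] at this ⊢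
      exact this
    · rw [add_self]
      exact Cob.zero _
  | insert k J hk ih =>
    intro hJ
    have hkO : k ∈ O := hJ (Finset.mem_insert_self k J)
    have hJO : J ⊆ O := fun o ho => hJ (Finset.mem_insert_of_mem ho)
    obtain ⟨v, hv1, hv2⟩ := ih hJO
    set Z : Set ℂ := closedBall 0 1 \
      ((⋃ o ∈ {o | o ∈ O ∧ o ∉ insert k J}, o) ∪ ⋃ o ∈ J, ball (c o) (r o)) with hZdef
    have hZc : IsCompact Z := by
      refine (isCompact_closedBall 0 1).diff ((isOpen_biUnion fun o ho => hOo o ho.1).union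
        (isOpen_biUnion fun o _ => isOpen_ball))
    have hkZ : k ⊆ Z := by
      intro x hx
      refine ⟨ball_subset_closedBall (hOb k hkO hx), ?_⟩
      rintro (h | h)
      · simp only [mem_iUnion, exists_prop, mem_ofPred_eq, Finset.mem_insert, not_or] at h
        obtain ⟨o, ⟨ho1, ho2, ho3⟩, ho4⟩ := h
        exact disjoint_left.1 (hOd o ho1 k hkO ho2) ho4 hx
      · simp only [mem_iUnion, exists_prop] at h
        obtain ⟨o, ho1, ho2⟩ := h
        have hne : o ≠ k := fun h => hk (h ▸ ho1)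
        exact disjoint_left.1 (hOd o (hJO ho1) k hkO hne)
          (hcr o (hJO ho1) (ball_subset_closedBall ho2)) hx
    obtain ⟨he, he1, he2, he3⟩ := affine_disc (c k) (hr k hkO)
    obtain ⟨g', hg1, hg2⟩ := ext_main surf_complex hZc (hOo k hkO) hkZ (hOp k hkO) he
      (by rw [he2]; exact hcr k hkO) (g := v) (hv1.mono (by
        rintro x ⟨⟨hx1, hx2⟩, hx3⟩
        refine ⟨hx1, fun h => ?_⟩
        rcases h with h | h
        · simp only [mem_iUnion, exists_prop, mem_ofPred_eq] at h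
          obtain ⟨o, ⟨ho1, ho2⟩, ho3⟩ := h
          by_cases hok : o = k
          · subst hok
            exact hx3 ho3
          · apply hx2
            left
            simp only [mem_iUnion, exists_prop, mem_ofPred_eq, Finset.mem_insert, not_or]
            exact ⟨o, ⟨ho1, hok, ho2⟩, ho3⟩
        · exact hx2 (Or.inr h)))
    refine ⟨g', ?_, ?_⟩
    · rw [he1] at hg1
      refine hg1.mono ?_
      rintro x ⟨hx1, hx2⟩
      refine ⟨⟨hx1, fun h => ?_⟩, fun h => ?_⟩
      · rcases h with h | h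
        · exact hx2 (Or.inl h)
        · apply hx2
          right
          simp only [mem_iUnion, exists_prop] at h ⊢
          obtain ⟨o, ho1, ho2⟩ := h
          exact ⟨o, Finset.mem_insert_of_mem ho1, ho2⟩
      · apply hx2
        right
        simp only [mem_iUnion, exists_prop]
        exact ⟨k, Finset.mem_insert_self k J, h⟩
    · refine hv2.trans (hg2.mono ?_)
      rintro x ⟨hx1, hx2⟩
      simp only [mem_iUnion, exists_prop, not_exists, not_and] at hx2
      refine ⟨⟨hx1, fun h => ?_⟩, fun h => hx2 k hkO h⟩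
      rcases h with h | h
      · simp only [mem_iUnion, exists_prop, mem_ofPred_eq] at h
        obtain ⟨o, ⟨ho1, _⟩, ho3⟩ := h
        exact hx2 o ho1 ho3
      · simp only [mem_iUnion, exists_prop] at h
        obtain ⟨o, ho1, ho2⟩ := h
        exact hx2 o (hJO ho1) (hcr o (hJO ho1) (ball_subset_closedBall ho2))

theorem plan_gen {Y : Set ℂ} (hY : IsCompact Y) (hS : sphere 0 1 ⊆ Y) (hY1 : Y ⊆ closedBall 0 1)
    {u : ℂ → ℂ → ZMod 2} (hu : Coc Y u) (huS : Cob (sphere 0 1) u) :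
    ∃ P : Finset ℂ, (P : Set ℂ) ⊆ ball 0 1 \ Y ∧ Even P.card ∧ Cob Y (u + ∑ p ∈ P, th p) := by
  classical
  obtain ⟨u', W, hW, hYW, hu', huu⟩ := taut1 hY.isClosed hu
  obtain ⟨O, hOo, hOp, hOn, hOb, hOd, hOW⟩ := pg_comps hY hS hW hYW
  have hball : ∀ o : Set ℂ, o ∈ O → ∃ (c : ℂ) (r : ℝ), 0 < r ∧ closedBall c r ⊆ o := by
    intro o ho
    obtain ⟨x, hx⟩ := hOn o ho
    obtain ⟨ε, hε, h⟩ := Metric.isOpen_iff.1 (hOo o ho) x hx
    exact ⟨x, ε / 2, half_pos hε, (closedBall_subset_ball (half_lt_self hε)).trans h⟩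
  choose! c r hr hcr using hball
  have hOb1 : ∀ o ∈ O, o ⊆ ball 0 1 := fun o ho => (hOb o ho).trans sdiff_subset
  obtain ⟨v, hv1, hv2⟩ := pg_step hu' hOo hOp hOb1 hOd hOW hr hcr O subset_rfl
  have hset : (closedBall (0 : ℂ) 1 \ ((⋃ o ∈ {o | o ∈ O ∧ o ∉ O}, o) ∪
      ⋃ o ∈ O, ball (c o) (r o))) = closedBall 0 1 \ ⋃ o ∈ O, ball (c o) (r o) := by
    ext x
    simp
  rw [hset] at hv1
  have hcO : ∀ o ∈ O, c o ∈ o := fun o ho => hcr o ho (mem_closedBall_self (hr o ho).le)
  have hcin : ∀ o ∈ O, ∀ o' ∈ O, c o ∈ o' → o = o' := by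
    intro o ho o' ho' h
    by_contra hne
    exact disjoint_left.1 (hOd o ho o' ho' hne) (hcO o ho) h
  set P : Finset ℂ := (O.filter fun o => ¬ Cob (sphere (c o) (r o)) v).image c with hPdef
  have hPO : ∀ p ∈ P, ∃ o ∈ O, ¬ Cob (sphere (c o) (r o)) v ∧ c o = p := by
    intro p hp
    obtain ⟨o, ho, rfl⟩ := Finset.mem_image.1 hp
    rw [Finset.mem_filter] at ho
    exact ⟨o, ho.1, ho.2, rfl⟩
  have hPY : (P : Set ℂ) ⊆ ball 0 1 \ Y := by
    intro p hp
    obtain ⟨o, ho, -, rfl⟩ := hPO p hp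
    exact hOb o ho (hcO o ho)
  have hYsub : Y ⊆ closedBall 0 1 \ ⋃ o ∈ O, o := by
    intro x hx
    refine ⟨hY1 hx, ?_⟩
    simp only [mem_iUnion, exists_prop, not_exists, not_and]
    intro o ho hxo
    exact (hOb o ho hxo).2 hx
  have hsub2 : closedBall 0 1 \ ⋃ o ∈ O, o ⊆
      closedBall (0 : ℂ) 1 \ ⋃ o ∈ O, ball (c o) (r o) := by
    rintro x ⟨hx1, hx2⟩
    refine ⟨hx1, fun h => hx2 ?_⟩
    simp only [mem_iUnion, exists_prop] at h ⊢
    obtain ⟨o, ho, hxo⟩ := h
    exact ⟨o, ho, hcr o ho (ball_subset_closedBall hxo)⟩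
  have hthcoc : ∀ p ∈ P, Coc (closedBall (0 : ℂ) 1 \ ⋃ o ∈ O, ball (c o) (r o)) (th p) := by
    intro p hp
    refine (th_coc p).mono ?_
    rintro x ⟨hx1, hx2⟩ hxp
    rw [mem_singleton_iff] at hxp
    subst hxp
    obtain ⟨o, ho, -, hc⟩ := hPO x hp
    apply hx2
    simp only [mem_iUnion, exists_prop]
    exact ⟨o, ho, by rw [← hc]; exact mem_ball_self (hr o ho)⟩
  have hsph : ∀ o ∈ O, sphere (c o) (r o) ⊆
      closedBall (0 : ℂ) 1 \ ⋃ o ∈ O, ball (c o) (r o) := by
    intro o ho x hx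
    refine ⟨ball_subset_closedBall (hOb1 o ho (hcr o ho (sphere_subset_closedBall hx))), ?_⟩
    simp only [mem_iUnion, exists_prop, not_exists, not_and]
    intro o' ho' hxo'
    by_cases hne : o = o'
    · subst hne
      rw [mem_ball] at hxo'
      rw [mem_sphere] at hx
      linarith
    · exact disjoint_left.1 (hOd o ho o' ho' hne) (hcr o ho (sphere_subset_closedBall hx))
        (hcr o' ho' (ball_subset_closedBall hxo'))
  have hgS : ∀ o ∈ O, Cob (sphere (c o) (r o)) (v + ∑ p ∈ P, th p) := by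
    intro o ho
    have hother : ∀ p ∈ P, p ≠ c o → Cob (sphere (c o) (r o)) (th p) := by
      intro p hp hne
      obtain ⟨o', ho', -, rfl⟩ := hPO p hp
      refine (th_out ?_).mono sphere_subset_closedBall
      intro h
      exact hne (by rw [hcin o' ho' o ho (hcr o ho h)])
    by_cases hcP : c o ∈ P
    · have hnv : ¬ Cob (sphere (c o) (r o)) v := by
        obtain ⟨o', ho', hn, hc⟩ := hPO _ hcP
        rw [hcin o' ho' o ho (hc ▸ hcO o ho)] at hn
        exact hn
      rw [← Finset.add_sum_erase P th hcP, ← add_assoc]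
      refine ((scc_sphere (hr o ho)).two (hv1.mono (hsph o ho))
        ((hthcoc _ hcP).mono (hsph o ho)) hnv (th_ball (mem_ball_self (hr o ho)))).add ?_
      exact pg_cob_sum _ fun p hp => hother p (Finset.mem_of_mem_erase hp)
        (Finset.ne_of_mem_erase hp)
    · have hv : Cob (sphere (c o) (r o)) v := by
        by_contra hn
        exact hcP (Finset.mem_image.2 ⟨o, Finset.mem_filter.2 ⟨ho, hn⟩, rfl⟩)
      exact hv.add (pg_cob_sum _ fun p hp => hother p hp fun h => hcP (h ▸ hp))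
  have himg : ∀ o : Set ℂ, o ∈ O → (fun z : ℂ => c o + r o * z) '' ball 0 1 = ball (c o) (r o) :=
    fun o ho => (affine_disc (c o) (hr o ho)).2.1
  have hU : (⋃ o ∈ O, (fun z : ℂ => c o + r o * z) '' ball 0 1) = ⋃ o ∈ O, ball (c o) (r o) :=
    iUnion₂_congr himg
  obtain ⟨h, hh1, hh2⟩ := fill (isClosed_closedBall (x := (0 : ℂ)) (ε := 1)) O
    (e := fun o z => c o + r o * z) (fun o ho => (affine_disc (c o) (hr o ho)).1)
    (fun o ho => by
      rw [(affine_disc (c o) (hr o ho)).2.2.1]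
      exact (hcr o ho).trans ((hOb1 o ho).trans ball_subset_closedBall))
    (fun o ho o' ho' hne => by
      rw [(affine_disc (c o) (hr o ho)).2.2.1, (affine_disc (c o') (hr o' ho')).2.2.1]
      exact (hOd o ho o' ho' hne).mono (hcr o ho) (hcr o' ho'))
    (g := v + ∑ p ∈ P, th p)
    (by
      rw [hU]
      exact hv1.add (pg_coc_sum P hthcoc))
    (fun o ho => by
      rw [(affine_disc (c o) (hr o ho)).2.2.2]
      exact hgS o ho)
  have hh : Cob (closedBall (0 : ℂ) 1) h :=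
    triv_star (isCompact_closedBall 0 1) (mem_closedBall_self zero_le_one)
      ((convex_closedBall 0 1).starConvex (mem_closedBall_self zero_le_one)) h hh1
  rw [hU] at hh2
  have hg : Cob Y (v + ∑ p ∈ P, th p) :=
    (hh2.mono (hYsub.trans hsub2)).congr.2 (hh.mono hY1)
  have hfin : Cob Y (u + ∑ p ∈ P, th p) := by
    refine Cob.of_eqOn ((hv2.mono hYsub).trans hg) ?_
    intro a ha b hb
    show u' a b + _ = u a b + _
    rw [huu a ha b hb]
  refine ⟨P, hPY, pg_even (hPY.trans sdiff_subset) ?_, hfin⟩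
  exact (hfin.mono hS).congr.1 huS

end Pool.Agent.H61.PO
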