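import Pool.Agent.H61.PR.Path
import Pool.Agent.H61.PR.Move
import Pool.Agent.H61.PR.PlanGen

/-!
# PR-06: adding a disc to a good open set

Let `D = e '' ball 0 1`, `B = ball 0 1`, `S = sphere 0 1`.  `V ∪ D` is open and preconnected (`D ∩ V` nonempty, both preconnected).
`step_global`: let `GoodV V` and `w` with `Coc Vᶜ w`, `Cob (V ∪ D)ᶜ w`.  Then there is a GLOBAL cocycle `h` (`Coc univ h`) with `Cob Vᶜ (w + h)`.
Proof.  (a) `glue` `A = Vᶜ`, `B' = Dᶜ`, `g1 = w`, `g2 = 0`, `A ∩ B' = (V ∪ D)ᶜ`: `w'` with `Coc (Vᶜ ∪ Dᶜ) w'`, `Cob Vᶜ (w' + w)`, `Cob Dᶜ w'`.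
(b) `Y = closedBall 0 1 \ (e ⁻¹' V ∩ ball 0 1)` compact, contains the circle; `u a b = w' (e a) (e b)` is a cocycle on `Y` (`e` maps `Y` into `(V ∩ D)ᶜ`), a coboundary on the circle (`e '' S ⊆ Dᶜ`).  `plan_gen`: a finite
set `P ⊆ ball 0 1 \ Y = ball 0 1 ∩ e ⁻¹' V`, `P.card` even, `Cob Y (u + ∑ p ∈ P, th p)`.
(c) `r > 0` such that the discs `closedBall p r`, `p ∈ P`, are pairwise disjoint and contained in `ball 0 1 ∩ e ⁻¹' V`; `e_p z = e (p + r z)` open embeddings (`affine_disc`), and a further disc `e_0` with closed disc in `V`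
and disjoint from all `e_p '' closedBall 0 1` (if `P` is empty nothing to do: `h = 0`; otherwise, e.g., make `r` smaller: a point of `V` different from the finitely many `e p`, and a small disc around it (`Surf`)).
(d) `θ`: cocycle on `(⋃ p, e_p '' B)ᶜ` with `Cob Dᶜ θ` and equivalent on `e '' closedBall 0 1 \ ⋃ e_p '' B` to the push forward of `∑ th p` (i.e. `fun a b => ∑ th p (e⁻¹ a) (e⁻¹ b)`): `glue` of the
closed sets `e '' closedBall 0 1 \ ⋃ e_p '' B` and `Dᶜ`, intersection `e '' S`; on the circle `∑ p ∈ P, th p` is a coboundary since `P.card` is even (`th_sphere`).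
(e) `Cob (V ∩ D)ᶜ (w' + θ)`: on `e '' closedBall 0 1 \ (V ∩ D)` it is equivalent to the push forward of `u + ∑ th p` (coboundary), on `Dᶜ` both are coboundaries; the intersection is `e '' S`, connected: `glueCob_conn`.
So `Cob Vᶜ (w + θ)`.
(f) for `p ∈ P` let `Θ_p` = `path_class` for `e_p`, `e_0`.  `G = θ + ∑ p ∈ P, Θ_p` is a cocycle on the complement of all the open discs `e_p '' B`, `e_0 '' B`.  On `e_p '' S`: `θ` is not a coboundary (equivalent to
`th p + (others)`, `th_ball`, `th_out`), `Θ_p` is not, `Θ_q`, `q ≠ p`, is (its domain contains the closed disc `e_p`: `disc_triv`): so `G` is a coboundary (`SCC.two`).  On `e_0 '' S`: `θ` is a coboundary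
(`disc_triv`), and an even number of non coboundaries `Θ_p` (`SCC.two` in pairs): coboundary.  `fill` (`Z = univ`): `h` with `Coc univ h`, `Cob (..) (G + h)`.  On `Vᶜ`: `Θ_p` are coboundaries, so `Cob Vᶜ (θ + h)`, `Cob Vᶜ (w + h)`.
`goodV_step`: let `e'` be a disc with closed disc in `V ∪ D`, `w` with `Coc (e' '' B)ᶜ w`, `Cob (V ∪ D)ᶜ w`, and suppose `¬ Cob (e' '' S) w`.  Take any disc `e''` with closed disc in `V` (`V` is nonempty) and
`res_move` (`W = V ∪ D`) to get `w''` with `Coc (e'' '' B)ᶜ w''`, `Cob (V ∪ D)ᶜ w''`, `¬ Cob (e'' '' S) w''`.  `step_global` (`Vᶜ ⊆ (e'' '' B)ᶜ`): `h`; `w'' + h` is a cocycle on `(e'' '' B)ᶜ`, a coboundary on `Vᶜ`, so by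
`GoodV V` on `e'' '' S`; `h` is a coboundary on `e'' '' S` (`disc_triv`): contradiction.
-/

namespace Pool.Agent.H61.PO

open Set Filter Topology Metric

variable {M : Type*} [MetricSpace M] [CompactSpace M]

private theorem st_dbl (a : ZMod 2) : a + a = 0 := CharTwo.add_self_eq_zero a

private theorem st_sum_cob {X ι : Type*} [TopologicalSpace X] {A : Set X} (P : Finset ι)
    {f : ι → X → X → ZMod 2} (h : ∀ p ∈ P, Cob A (f p)) : Cob A (∑ p ∈ P, f p) := by
  classical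
  induction P using Finset.induction_on with
  | empty => exact Cob.zero A
  | insert p P hp ih =>
    rw [Finset.sum_insert hp]
    exact (h p (Finset.mem_insert_self p P)).add
      (ih fun q hq => h q (Finset.mem_insert_of_mem hq))

private theorem st_sum_coc {X ι : Type*} [TopologicalSpace X] {A : Set X} (P : Finset ι)
    {f : ι → X → X → ZMod 2} (h : ∀ p ∈ P, Coc A (f p)) : Coc A (∑ p ∈ P, f p) := by
  classical
  induction P using Finset.induction_on with
  | empty => exact Coc.zero A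
  | insert p P hp ih =>
    rw [Finset.sum_insert hp]
    exact (h p (Finset.mem_insert_self p P)).add
      (ih fun q hq => h q (Finset.mem_insert_of_mem hq))

private theorem st_even {X ι : Type*} [TopologicalSpace X] {A : Set X} (P : Finset ι)
    {f : ι → X → X → ZMod 2} {g : X → X → ZMod 2} (h : ∀ p ∈ P, Cob A (f p + g))
    (hP : Even P.card) : Cob A (∑ p ∈ P, f p) := by
  have h1 := st_sum_cob P h
  rw [Finset.sum_add_distrib, Finset.sum_const] at h1
  obtain ⟨k, hk⟩ := hP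
  have h2 : P.card • g = 0 := by
    rw [hk]
    funext a b
    show ((k + k) • g) a b = 0
    rw [add_smul]
    exact st_dbl _
  rw [h2, add_zero] at h1
  exact h1

/-- a finite set of points in an open set has small disjoint closed discs in the open set -/
private theorem st_radius {Ω : Set ℂ} (hΩ : IsOpen Ω) (J : Finset ℂ) (hJ : ∀ j ∈ J, j ∈ Ω) :
    ∃ r : ℝ, 0 < r ∧ (∀ j ∈ J, closedBall j r ⊆ Ω) ∧
      ∀ i ∈ J, ∀ j ∈ J, i ≠ j → Disjoint (closedBall i r) (closedBall j r) := by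
  have h1 : ∀ j ∈ J, ∀ᶠ r in 𝓝[>] (0:ℝ), closedBall j r ⊆ Ω := by
    intro j hj
    obtain ⟨ε, hε, hb⟩ := Metric.nhds_basis_closedBall.mem_iff.1 (hΩ.mem_nhds (hJ j hj))
    filter_upwards [Ioo_mem_nhdsGT hε] with r hr
    exact (closedBall_subset_closedBall hr.2.le).trans hb
  have h2 : ∀ i ∈ J, ∀ j ∈ J, ∀ᶠ r in 𝓝[>] (0:ℝ),
      i ≠ j → Disjoint (closedBall i r) (closedBall j r) := by
    intro i _ j _
    by_cases hij : i = j
    · exact Eventually.of_forall fun r h => absurd hij h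
    · have hd : 0 < dist i j / 2 := by
        have := dist_pos.2 hij
        linarith
      filter_upwards [Ioo_mem_nhdsGT hd] with r hr _
      refine Metric.closedBall_disjoint_closedBall ?_
      linarith [hr.2]
  have h3 : ∀ᶠ r in 𝓝[>] (0:ℝ), ∀ j ∈ J, closedBall j r ⊆ Ω :=
    (Filter.eventually_all_finset J).2 h1
  have h4 : ∀ᶠ r in 𝓝[>] (0:ℝ), ∀ i ∈ J, ∀ j ∈ J,
      i ≠ j → Disjoint (closedBall i r) (closedBall j r) :=
    (Filter.eventually_all_finset J).2 fun i hi =>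
      (Filter.eventually_all_finset J).2 (h2 i hi)
  obtain ⟨r, ⟨h5, h6⟩, h7⟩ := ((h3.and h4).and self_mem_nhdsWithin).exists
  exact ⟨r, h7, h5, h6⟩

theorem step_global (hM : Surf M) {V : Set M} (hV : GoodV V) {e : ℂ → M}
    (he : IsOpenEmbedding e) {w : M → M → ZMod 2} (hw : Coc Vᶜ w)
    (hc : Cob (V ∪ e '' ball 0 1)ᶜ w) :
    ∃ h : M → M → ZMod 2, Coc univ h ∧ Cob Vᶜ (w + h) := by
  classical
  have hVo : IsOpen V := hV.1
  have hDo : IsOpen (e '' ball 0 1) := he.isOpenMap _ isOpen_ball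
  have hinj := he.injective
  have hcont := he.continuous
  have hClK : IsCompact (e '' closedBall 0 1) := (isCompact_closedBall 0 1).image hcont
  have hClC : IsClosed (e '' closedBall 0 1) := hClK.isClosed
  obtain ⟨D, hD⟩ : ∃ D : Set M, D = e '' ball 0 1 := ⟨_, rfl⟩
  rw [← hD] at hc hDo
  have memD : ∀ z, e z ∈ D ↔ z ∈ ball (0:ℂ) 1 := by
    intro z
    rw [hD]
    exact hinj.mem_set_image
  have hDCl : D ⊆ e '' closedBall 0 1 := by
    rw [hD]
    exact image_mono ball_subset_closedBall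
  -- (a)
  have hinter : Vᶜ ∩ Dᶜ = (V ∪ D)ᶜ := (compl_union V D).symm
  obtain ⟨w', hw'1, hw'2, hw'3⟩ := glue (g2 := fun _ _ => 0) hVo.isClosed_compl
    hDo.isClosed_compl hw (Coc.zero _) (by
      rw [hinter]
      exact hc.add (Cob.zero _))
  have hw'D : Cob Dᶜ w' := by
    refine hw'3.of_eqOn fun a _ b _ => ?_
    show w' a b + 0 = w' a b
    rw [add_zero]
  -- (b)
  obtain ⟨Ω, hΩ⟩ : ∃ Ω : Set ℂ, Ω = e ⁻¹' V ∩ ball 0 1 := ⟨_, rfl⟩
  have hΩo : IsOpen Ω := by
    rw [hΩ]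
    exact (hVo.preimage hcont).inter isOpen_ball
  obtain ⟨Y, hY⟩ : ∃ Y : Set ℂ, Y = closedBall 0 1 \ Ω := ⟨_, rfl⟩
  have hYK : IsCompact Y := by
    rw [hY]
    exact (isCompact_closedBall 0 1).diff hΩo
  have hYm : MapsTo e Y (Vᶜ ∪ Dᶜ) := by
    intro z hz
    rw [hY, hΩ] at hz
    by_cases h1 : z ∈ ball (0:ℂ) 1
    · left
      intro h2
      exact hz.2 ⟨h2, h1⟩
    · right
      intro h2
      exact h1 ((memD z).1 h2)
  have hSY : sphere (0:ℂ) 1 ⊆ Y := by
    intro z hz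
    rw [hY, hΩ]
    refine ⟨sphere_subset_closedBall hz, fun h => ?_⟩
    rw [mem_sphere] at hz
    have := h.2
    rw [mem_ball, hz] at this
    exact lt_irrefl _ this
  have hSm : MapsTo e (sphere (0:ℂ) 1) Dᶜ := by
    intro z hz h2
    have := (memD z).1 h2
    rw [mem_sphere] at hz
    rw [mem_ball, hz] at this
    exact lt_irrefl _ this
  obtain ⟨P, hP1, hP2, hP3⟩ := plan_gen (u := fun a b => w' (e a) (e b)) hYK hSY
    (by rw [hY]; exact sdiff_subset) (hw'1.pullback hcont.continuousOn hYm)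
    (hw'D.pullback hcont.continuousOn hSm)
  have hPΩ : ∀ p ∈ P, p ∈ Ω := by
    intro p hp
    have h1 := hP1 hp
    by_contra h2
    refine h1.2 ?_
    rw [hY]
    exact ⟨ball_subset_closedBall h1.1, h2⟩
  -- the inverse of `e`
  obtain ⟨ι, hι⟩ : ∃ ι : M → ℂ, ∀ z, ι (e z) = z := ⟨Function.invFun e, Function.leftInverse_invFun hinj⟩
  have hιc : ContinuousOn ι (e '' closedBall 0 1) := by
    rintro x ⟨z, _, rfl⟩
    refine ContinuousAt.continuousWithinAt ?_
    have h1 : Tendsto (ι ∘ e) (𝓝 z) (𝓝 z) := by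
      have : ι ∘ e = id := funext hι
      rw [this]
      exact tendsto_id
    show Tendsto ι (𝓝 (e z)) (𝓝 (ι (e z)))
    rw [hι, ← he.map_nhds_eq z]
    exact h1
  obtain ⟨TT, hTT⟩ : ∃ TT : ℂ → ℂ → ZMod 2, TT = ∑ p ∈ P, th p := ⟨_, rfl⟩
  rw [← hTT] at hP3
  -- the point `c0` and the radius
  obtain ⟨c0, hc0⟩ : ∃ c0 : ℂ, P.Nonempty → c0 ∈ Ω ∧ c0 ∉ P := by
    by_cases hne : P.Nonempty
    · obtain ⟨p, hp⟩ := hne
      obtain ⟨c0, h1, h2⟩ := (P.countable_toSet.dense_compl ℝ).inter_open_nonempty Ω hΩo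
        ⟨p, hPΩ p hp⟩
      exact ⟨c0, fun _ => ⟨h1, fun h => h2 h⟩⟩
    · exact ⟨0, fun h => absurd h hne⟩
  obtain ⟨J, hJ⟩ : ∃ J : Finset ℂ, J = if P.Nonempty then insert c0 P else ∅ := ⟨_, rfl⟩
  have hPJ : ∀ p ∈ P, p ∈ J := by
    intro p hp
    rw [hJ, if_pos ⟨p, hp⟩]
    exact Finset.mem_insert_of_mem hp
  have hJΩ : ∀ j ∈ J, j ∈ Ω := by
    intro j hj
    by_cases hne : P.Nonempty
    · rw [hJ, if_pos hne, Finset.mem_insert] at hj
      rcases hj with rfl | hj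
      · exact (hc0 hne).1
      · exact hPΩ j hj
    · rw [hJ, if_neg hne] at hj
      exact absurd hj (Finset.notMem_empty j)
  obtain ⟨r, hr, hr1, hr2⟩ := st_radius hΩo J hJΩ
  obtain ⟨E, hE⟩ : ∃ E : ℂ → ℂ → M, E = fun j z => e (j + r * z) := ⟨_, rfl⟩
  have hEo : ∀ j, IsOpenEmbedding (E j) := by
    intro j
    rw [hE]
    exact he.comp (affine_disc j hr).1
  have hEB : ∀ j, E j '' ball 0 1 = e '' ball j r := by
    intro j
    rw [← (affine_disc j hr).2.1, hE, ← image_comp]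
    rfl
  have hEC : ∀ j, E j '' closedBall 0 1 = e '' closedBall j r := by
    intro j
    rw [← (affine_disc j hr).2.2.1, hE, ← image_comp]
    rfl
  have hES : ∀ j, E j '' sphere 0 1 = e '' sphere j r := by
    intro j
    rw [← (affine_disc j hr).2.2.2, hE, ← image_comp]
    rfl
  have hECV : ∀ j ∈ J, E j '' closedBall 0 1 ⊆ V ∩ D := by
    intro j hj
    rw [hEC]
    rintro x ⟨z, hz, rfl⟩
    have h1 := hr1 j hj hz
    rw [hΩ] at h1
    exact ⟨h1.1, (memD z).2 h1.2⟩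
  have hEBC : ∀ j, E j '' ball 0 1 ⊆ E j '' closedBall 0 1 := fun j =>
    image_mono ball_subset_closedBall
  have hEBo : ∀ j, IsOpen (E j '' ball 0 1) := fun j => (hEo j).isOpenMap _ isOpen_ball
  have hdis : ∀ i ∈ J, ∀ j ∈ J, i ≠ j →
      Disjoint (E i '' closedBall 0 1) (E j '' closedBall 0 1) := by
    intro i hi j hj hij
    rw [hEC, hEC]
    exact (disjoint_image_iff hinj).2 (hr2 i hi j hj hij)
  -- (d)
  obtain ⟨A1, hA1⟩ : ∃ A1 : Set M, A1 = e '' closedBall 0 1 \ ⋃ p ∈ P, E p '' ball 0 1 := ⟨_, rfl⟩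
  have hA1c : IsClosed A1 := by
    rw [hA1]
    exact hClC.sdiff (isOpen_biUnion fun p _ => hEBo p)
  have hUD : (⋃ p ∈ P, E p '' ball 0 1) ⊆ V ∩ D := by
    refine iUnion₂_subset fun p hp => ?_
    exact (hEBC p).trans (hECV p (hPJ p hp))
  have hA12 : A1 ∪ Dᶜ = (⋃ p ∈ P, E p '' ball 0 1)ᶜ := by
    rw [hA1]
    ext x
    constructor
    · rintro (h | h)
      · exact h.2
      · exact fun h2 => h (hUD h2).2
    · intro h
      by_cases hx : x ∈ D
      · exact Or.inl ⟨hDCl hx, h⟩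
      · exact Or.inr hx
  have hClD : ∀ x ∈ e '' closedBall 0 1, x ∉ D → x ∈ e '' sphere 0 1 := by
    rintro x ⟨z, hz, rfl⟩ hx
    refine ⟨z, ?_, rfl⟩
    rw [memD] at hx
    rw [mem_sphere]
    rw [mem_closedBall] at hz
    rw [mem_ball, not_lt] at hx
    exact le_antisymm hz hx
  have hA12i : A1 ∩ Dᶜ ⊆ e '' sphere 0 1 := by
    intro x hx
    rw [hA1] at hx
    exact hClD x hx.1.1 hx.2
  have hιm : ∀ {A : Set M} {B : Set ℂ}, A ⊆ e '' closedBall 0 1 →
      (∀ z, e z ∈ A → z ∈ B) → MapsTo ι A B := by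
    intro A B h1 h2 x hx
    obtain ⟨z, _, rfl⟩ := h1 hx
    rw [hι]
    exact h2 z hx
  have hTcoc : Coc A1 (fun a b => TT (ι a) (ι b)) := by
    have h1 : Coc ((P : Set ℂ)ᶜ) TT := by
      rw [hTT]
      refine st_sum_coc P fun p hp => (th_coc p).mono ?_
      intro z hz h
      rw [mem_singleton_iff] at h
      rw [h] at hz
      exact hz hp
    refine h1.pullback (hιc.mono ?_) (hιm ?_ ?_)
    · rw [hA1]; exact sdiff_subset
    · rw [hA1]; exact sdiff_subset
    · intro z hz h2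
      rw [hA1] at hz
      refine hz.2 (mem_iUnion₂.2 ⟨z, h2, ?_⟩)
      rw [hEB]
      exact ⟨z, mem_ball_self hr, rfl⟩
  have hTS : Cob (sphere (0:ℂ) 1) TT := by
    rw [hTT]
    refine st_even P (g := th 0) (fun p hp => ?_) hP2
    have h1 := hPΩ p hp
    rw [hΩ] at h1
    exact th_sphere h1.2 (mem_ball_self one_pos)
  obtain ⟨θ, hθ1, hθ2, hθ3⟩ := glue (g2 := fun _ _ => 0) hA1c hDo.isClosed_compl hTcoc
    (Coc.zero _) (by
      refine Cob.add ?_ (Cob.zero _)
      refine hTS.pullback (hιc.mono ?_) (hιm ?_ ?_)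
      · exact hA12i.trans (image_mono sphere_subset_closedBall)
      · exact hA12i.trans (image_mono sphere_subset_closedBall)
      · intro z hz
        exact hinj.mem_set_image.1 (hA12i hz))
  rw [hA12] at hθ1
  have hθD : Cob Dᶜ θ := by
    refine hθ3.of_eqOn fun a _ b _ => ?_
    show θ a b + 0 = θ a b
    rw [add_zero]
  -- (e)
  obtain ⟨B1, hB1⟩ : ∃ B1 : Set M, B1 = e '' closedBall 0 1 \ (V ∩ D) := ⟨_, rfl⟩
  have hB1c : IsClosed B1 := by
    rw [hB1]
    exact hClC.sdiff (hVo.inter hDo)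
  have hB1A1 : B1 ⊆ A1 := by
    rw [hB1, hA1]
    exact sdiff_subset_sdiff_right hUD
  have hB12 : B1 ∪ Dᶜ = Vᶜ ∪ Dᶜ := by
    rw [hB1]
    ext x
    constructor
    · rintro (h | h)
      · by_cases hx : x ∈ V
        · exact Or.inr fun h2 => h.2 ⟨hx, h2⟩
        · exact Or.inl hx
      · exact Or.inr h
    · intro h
      by_cases hx : x ∈ D
      · refine Or.inl ⟨hDCl hx, fun h2 => ?_⟩
        rcases h with h | h
        · exact h h2.1
        · exact h hx
      · exact Or.inr hx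
  have hB12i : B1 ∩ Dᶜ = e '' sphere 0 1 := by
    apply Subset.antisymm
    · intro x hx
      rw [hB1] at hx
      exact hClD x hx.1.1 hx.2
    · rintro x ⟨z, hz, rfl⟩
      have h1 := hSm hz
      rw [hB1]
      exact ⟨⟨⟨z, sphere_subset_closedBall hz, rfl⟩, fun h2 => h1 h2.2⟩, h1⟩
  have hB1T : Cob B1 (w' + fun a b => TT (ι a) (ι b)) := by
    have h1 : Cob B1 (fun a b => ((fun a b => w' (e a) (e b)) + TT) (ι a) (ι b)) := by
      refine hP3.pullback (hιc.mono ?_) (hιm ?_ ?_)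
      · rw [hB1]; exact sdiff_subset
      · rw [hB1]; exact sdiff_subset
      · intro z hz
        rw [hB1] at hz
        rw [hY, hΩ]
        refine ⟨hinj.mem_set_image.1 hz.1, fun h2 => hz.2 ⟨h2.1, (memD z).2 h2.2⟩⟩
    refine h1.of_eqOn ?_
    intro a ha b hb
    rw [hB1] at ha hb
    obtain ⟨z, _, rfl⟩ := ha.1
    obtain ⟨z', _, rfl⟩ := hb.1
    show w' (e (ι (e z))) (e (ι (e z'))) + TT (ι (e z)) (ι (e z')) =
      w' (e z) (e z') + TT (ι (e z)) (ι (e z'))
    rw [hι, hι]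
  have hwθ : Cob (Vᶜ ∪ Dᶜ) (w' + θ) := by
    rw [← hB12]
    refine glueCob_conn hB1c hDo.isClosed_compl ?_ ?_ ?_ ?_
    · rw [hB12]
      refine hw'1.add (hθ1.mono ?_)
      intro x hx h2
      have h3 := hUD h2
      rcases hx with hx | hx
      · exact hx h3.1
      · exact hx h3.2
    · exact hB1T.trans (hθ2.mono hB1A1).symm
    · exact hw'D.add hθD
    · rw [hB12i]
      exact (scc_disc he).preconn
  have hwθV : Cob Vᶜ (w + θ) := (hw'2.symm).trans (hwθ.mono subset_union_left)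
  -- the case of the empty set
  by_cases hne : P.Nonempty
  swap
  · rw [Finset.not_nonempty_iff_eq_empty] at hne
    refine ⟨θ, ?_, hwθV⟩
    have h1 : (⋃ p ∈ P, E p '' ball 0 1)ᶜ = (univ : Set M) := by
      rw [hne]
      simp
    rw [← h1]
    exact hθ1
  -- (f)
  have hJP : J = insert c0 P := by rw [hJ, if_pos hne]
  have hc0J : c0 ∈ J := by
    rw [hJP]
    exact Finset.mem_insert_self c0 P
  have hpc : ∀ p ∈ P, p ≠ c0 := by
    intro p hp h
    rw [h] at hp
    exact (hc0 hne).2 hp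
  have hΘ : ∀ p, ∃ Θ : M → M → ZMod 2, p ∈ P →
      Coc (E p '' ball 0 1 ∪ E c0 '' ball 0 1)ᶜ Θ ∧ Cob Vᶜ Θ ∧
      ¬ Cob (E p '' sphere 0 1) Θ ∧ ¬ Cob (E c0 '' sphere 0 1) Θ := by
    intro p
    by_cases hp : p ∈ P
    · obtain ⟨Θ, h⟩ := path_class hM hV (hEo p) (hEo c0)
        ((hECV p (hPJ p hp)).trans inter_subset_left) ((hECV c0 hc0J).trans inter_subset_left)
        (hdis p (hPJ p hp) c0 hc0J (hpc p hp))
      exact ⟨Θ, fun _ => h⟩
    · exact ⟨0, fun h => absurd h hp⟩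
  choose Θ hΘ using hΘ
  have hEScl : ∀ j, E j '' sphere 0 1 ⊆ E j '' closedBall 0 1 := fun j =>
    image_mono sphere_subset_closedBall
  -- the closed disc of `j` misses the open disc of `i`
  have hmiss : ∀ i ∈ J, ∀ j ∈ J, i ≠ j → E j '' closedBall 0 1 ⊆ (E i '' ball 0 1)ᶜ := by
    intro i hi j hj hij x hx h2
    exact (Set.disjoint_left.1 (hdis i hi j hj hij)) (hEBC i h2) hx
  have hmissS : ∀ i ∈ J, ∀ j ∈ J, E j '' sphere 0 1 ⊆ (E i '' ball 0 1)ᶜ := by
    intro i hi j hj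
    by_cases hij : i = j
    · rw [hij]
      rintro x ⟨z, hz, rfl⟩ h2
      have h3 := (hEo j).injective.mem_set_image.1 h2
      rw [mem_sphere] at hz
      rw [mem_ball, hz] at h3
      exact lt_irrefl _ h3
    · exact (hEScl j).trans (hmiss i hi j hj hij)
  have hΘS : ∀ p ∈ P, ∀ j ∈ J, Coc (E j '' sphere 0 1) (Θ p) := by
    intro p hp j hj
    refine (hΘ p hp).1.mono ?_
    rw [compl_union]
    exact subset_inter (hmissS p (hPJ p hp) j hj) (hmissS c0 hc0J j hj)
  have hθS : ∀ j ∈ J, Coc (E j '' sphere 0 1) θ := by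
    intro j hj
    refine hθ1.mono ?_
    intro x hx h2
    obtain ⟨p, hp, h3⟩ := mem_iUnion₂.1 h2
    exact hmissS p (hPJ p hp) j hj hx h3
  have hθn : ∀ p ∈ P, ¬ Cob (E p '' sphere 0 1) θ := by
    intro p hp h
    have hsub : E p '' sphere 0 1 ⊆ A1 := by
      rw [hA1]
      refine fun x hx => ⟨hDCl (hECV p (hPJ p hp) (hEScl p hx)).2, fun h2 => ?_⟩
      obtain ⟨q, hq, h3⟩ := mem_iUnion₂.1 h2
      exact hmissS q (hPJ q hq) p (hPJ p hp) hx h3
    have h1 : Cob (E p '' sphere 0 1) (fun a b => TT (ι a) (ι b)) :=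
      (Cob.congr (hθ2.mono hsub)).1 h
    have h2 : Cob (sphere p r) TT := by
      have h3 := h1.pullback (φ := e) (A := sphere p r) hcont.continuousOn
        (fun z hz => by rw [hES]; exact ⟨z, hz, rfl⟩)
      refine h3.of_eqOn fun a _ b _ => ?_
      show TT (ι (e a)) (ι (e b)) = TT a b
      rw [hι, hι]
    rw [hTT, ← Finset.add_sum_erase P th hp] at h2
    have h3 : Cob (sphere p r) (∑ q ∈ P.erase p, th q) := by
      refine st_sum_cob _ fun q hq => ?_
      rw [Finset.mem_erase] at hq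
      refine (th_out (c := p) (r := r) ?_).mono sphere_subset_closedBall
      intro h4
      exact (Set.disjoint_left.1 (hr2 q (hPJ q hq.2) p (hPJ p hp) hq.1))
        (mem_closedBall_self hr.le) h4
    have h4 : Cob (sphere p r) (th p) := by
      have h5 := h2.add h3
      refine h5.of_eqOn fun a _ b _ => ?_
      show th p a b + (∑ q ∈ P.erase p, th q) a b + (∑ q ∈ P.erase p, th q) a b = th p a b
      rw [add_assoc, st_dbl, add_zero]
    exact th_not_cob p hr h4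
  have hGS : ∀ j ∈ J, Cob (E j '' sphere 0 1) (θ + ∑ p ∈ P, Θ p) := by
    intro j hj
    by_cases hjP : j ∈ P
    · have h1 : Cob (E j '' sphere 0 1) (θ + Θ j) :=
        (scc_disc (hEo j)).two (hθS j hj) (hΘS j hjP j hj) (hθn j hjP) (hΘ j hjP).2.2.1
      have h2 : Cob (E j '' sphere 0 1) (∑ q ∈ P.erase j, Θ q) := by
        refine st_sum_cob _ fun q hq => ?_
        rw [Finset.mem_erase] at hq
        refine Cob.mono (disc_triv (hEo j) (Θ q) ((hΘ q hq.2).1.mono ?_)) (hEScl j)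
        rw [compl_union]
        exact subset_inter (hmiss q (hPJ q hq.2) j hj hq.1)
          (hmiss c0 hc0J j hj (hpc j hjP).symm)
      have h3 := h1.add h2
      rw [← Finset.add_sum_erase P Θ hjP, ← add_assoc]
      exact h3
    · have hjc : j = c0 := by
        rw [hJP, Finset.mem_insert] at hj
        exact hj.resolve_right hjP
      rw [hjc]
      refine Cob.add ?_ ?_
      · refine Cob.mono (disc_triv (hEo c0) θ (hθ1.mono ?_)) (hEScl c0)
        intro x hx h2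
        obtain ⟨p, hp, h3⟩ := mem_iUnion₂.1 h2
        exact hmiss p (hPJ p hp) c0 hc0J (hpc p hp) hx h3
      · obtain ⟨p0, hp0⟩ := hne
        refine st_even P (g := Θ p0) (fun p hp => ?_) hP2
        exact (scc_disc (hEo c0)).two (hΘS p hp c0 hc0J) (hΘS p0 hp0 c0 hc0J)
          (hΘ p hp).2.2.2 (hΘ p0 hp0).2.2.2
  obtain ⟨h, hh1, hh2⟩ := fill (Z := (univ : Set M)) isClosed_univ J (e := E)
    (fun j _ => hEo j) (fun j _ => subset_univ _) hdis (g := θ + ∑ p ∈ P, Θ p) (by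
      refine Coc.add (hθ1.mono ?_) (st_sum_coc P fun p hp => (hΘ p hp).1.mono ?_)
      · rintro x ⟨_, hx⟩ h2
        obtain ⟨p, hp, h3⟩ := mem_iUnion₂.1 h2
        exact hx (mem_iUnion₂.2 ⟨p, hPJ p hp, h3⟩)
      · rintro x ⟨_, hx⟩ (h2 | h2)
        · exact hx (mem_iUnion₂.2 ⟨p, hPJ p hp, h2⟩)
        · exact hx (mem_iUnion₂.2 ⟨c0, hc0J, h2⟩)) hGS
  refine ⟨h, hh1, ?_⟩
  have hVsub : Vᶜ ⊆ univ \ ⋃ j ∈ J, E j '' ball 0 1 := by
    intro x hx
    refine ⟨mem_univ _, fun h2 => ?_⟩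
    obtain ⟨p, hp, h3⟩ := mem_iUnion₂.1 h2
    exact hx (hECV p hp (hEBC p h3)).1
  have hΘV : Cob Vᶜ (∑ p ∈ P, Θ p) := st_sum_cob P fun p hp => (hΘ p hp).2.1
  have hθh : Cob Vᶜ (θ + h) := by
    have h1 := (hh2.mono hVsub).add hΘV
    refine h1.of_eqOn fun a _ b _ => ?_
    show θ a b + (∑ p ∈ P, Θ p) a b + h a b + (∑ p ∈ P, Θ p) a b = θ a b + h a b
    have h2 := st_dbl ((∑ p ∈ P, Θ p) a b)
    calc θ a b + (∑ p ∈ P, Θ p) a b + h a b + (∑ p ∈ P, Θ p) a b
        = θ a b + h a b + ((∑ p ∈ P, Θ p) a b + (∑ p ∈ P, Θ p) a b) := by ring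
      _ = _ := by rw [h2, add_zero]
  exact hwθV.trans hθh

theorem goodV_step (hM : Surf M) {V : Set M} (hV : GoodV V) {e : ℂ → M}
    (he : IsOpenEmbedding e) (hne : (e '' ball 0 1 ∩ V).Nonempty) :
    GoodV (V ∪ e '' ball 0 1) := by
  have hoD : IsOpen (e '' ball 0 1) := he.isOpenMap _ isOpen_ball
  have hcD : IsPreconnected (e '' ball (0 : ℂ) 1) :=
    ((convex_ball (0 : ℂ) 1).isPreconnected).image _ he.continuous.continuousOn
  obtain ⟨x, hxD, hxV⟩ := hne
  have hoW : IsOpen (V ∪ e '' ball 0 1) := hV.1.union hoD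
  have hcW : IsPreconnected (V ∪ e '' ball 0 1) := IsPreconnected.union x hxV hxD hV.2.1 hcD
  refine ⟨hoW, hcW, fun e' he' h' w hw hc => ?_⟩
  by_contra hn
  obtain ⟨e'', he'', -, hr⟩ := hM x V (hV.1.mem_nhds hxV)
  have hs : e'' '' closedBall 0 1 ⊆ V := (image_subset_range _ _).trans hr
  have hs' : e'' '' ball 0 1 ⊆ V := (image_subset_range _ _).trans hr
  obtain ⟨w'', hw'', hc'', hn''⟩ := res_move hM hoW hcW he' he'' h'
    (hs.trans subset_union_left) hw hc hn
  obtain ⟨h, hh, hch⟩ := step_global hM hV he (hw''.mono (compl_subset_compl.2 hs')) hc''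
  have h1 : Cob (e'' '' sphere 0 1) (w'' + h) :=
    hV.2.2 e'' he'' hs (w'' + h) (hw''.add (hh.mono (subset_univ _))) hch
  have h2 : Cob (e'' '' sphere 0 1) h :=
    (disc_triv he'' h (hh.mono (subset_univ _))).mono (image_mono sphere_subset_closedBall)
  exact hn'' ((Cob.congr h1).2 h2)

end Pool.Agent.H61.PO
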